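import Pool.Agent.L0h10.RT.Core

/-!
# The bounded power theorem for Tate classes: conclusion
-/

set_option linter.unusedSectionVars false

open CategoryTheory AlgebraicGeometry TensorProduct Matrix

universe u v

namespace Pool.Agent.L0h10.RT

open Module
open Pool.Agent.H914 Pool.Agent.H914.VarClass Pool.Agent.H914.VarClass.Obj
  Pool.Agent.H914.WeilCohomology
open Pool.Agent.Y121.AHS
open Pool.Agent.Y133.Half (pw pfst psnd wb wb_zero wb_succ ClassPred PH)
open Pool.Agent.Y121.AH (hodgePred)
open Pool.Agent.N996.BP Pool.Agent.N996.FP Pool.Agent.N996.BP.Geo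
open Pool.Agent.L0h10.TS (GaloisAction IsTate ve ve_zero toRep isT_iff vB Operators
  IsInfinitesimal KillsTate up IsComb jj ActsSemisimply)
open Pool.Agent.L0h10.RQ

variable {k : Type u} [Field k] {𝒱 : VarClass k} {ops : CycleOps 𝒱} {T : HodgeTheory ops}
  {X : 𝒱.Obj} {L Ω : Type} [Field L] [Field Ω] [Algebra T.W.K L] [Algebra T.W.K Ω] [Algebra L Ω]
  [IsScalarTower T.W.K L Ω] {Γ : Type v} [Group Γ] [TopologicalSpace Γ] {G : GaloisAction T X Γ L}
  [CharZero L]

section Data

variable {ι : Type} [Fintype ι] [DecidableEq ι] {e : Basis ι T.W.K (T.W.H X)} {deg : ι → ℕ}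
  (hdeg : ∀ i, e i ∈ T.W.gr X (deg i)) {H : HData ι}

variable (G e) in
/-- The combinations of Tate classes in coordinates. -/
noncomputable def tsub : Submodule L (ι → L) :=
  (Submodule.span L {x : HL T.W L X | ∃ j, IsTate G 0 j x}).comap (vB L e).toLinearMap

lemma tsub_TT {j : L →+* ℂ} {b : ι → L} (hb : b ∈ tsub G e) :
    (fun w : Fin (0 + 1) → ι => j (b (w 0))) ∈ TT j (toRep G e hdeg) 0 := by
  have key : ∀ x ∈ Submodule.span L {x : HL T.W L X | ∃ j, IsTate G 0 j x},
      (fun w : Fin (0 + 1) → ι => j ((vB L e).symm x (w 0))) ∈ TT j (toRep G e hdeg) 0 := by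
    intro x hx
    induction hx using Submodule.span_induction with
    | mem x hx =>
      obtain ⟨p, hp⟩ := hx
      obtain ⟨v, rfl⟩ := (vB L e).surjective x
      rw [LinearEquiv.symm_apply_apply]
      refine TT_of (b := fun w : Fin (0 + 1) → ι => v (w 0)) ((isT_iff G e hdeg).2 ⟨p, ?_⟩)
      rw [ve_zero]
      exact hp
    | zero =>
      have h1 : (fun w : Fin (0 + 1) → ι => j ((vB L e).symm (0 : HL T.W L X) (w 0))) = 0 := by
        funext w
        rw [map_zero]
        exact map_zero j
      rw [h1]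
      exact Submodule.zero_mem _
    | add a b _ _ ha hb =>
      have h1 : (fun w : Fin (0 + 1) → ι => j ((vB L e).symm (a + b) (w 0))) =
          (fun w : Fin (0 + 1) → ι => j ((vB L e).symm a (w 0))) +
            fun w : Fin (0 + 1) → ι => j ((vB L e).symm b (w 0)) := by
        funext w
        rw [map_add]
        exact map_add j _ _
      rw [h1]
      exact Submodule.add_mem _ ha hb
    | smul c a _ ha =>
      have h1 : (fun w : Fin (0 + 1) → ι => j ((vB L e).symm (c • a) (w 0))) =
          j c • fun w : Fin (0 + 1) → ι => j ((vB L e).symm a (w 0)) := by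
        funext w
        rw [map_smul]
        exact map_mul j _ _
      rw [h1]
      exact Submodule.smul_mem _ _ ha
  have h1 := key _ hb
  rw [LinearEquiv.coe_coe, LinearEquiv.symm_apply_apply] at h1
  exact h1

/-- The codimension in coordinates. -/
lemma codim_eq : codim G = finrank L ((ι → L) ⧸ tsub G e) := by
  let S : Submodule L (HL T.W L X) := Submodule.span L {x : HL T.W L X | ∃ j, IsTate G 0 j x}
  have h1 : (tsub G e).map (vB L e).toLinearMap = S :=
    Submodule.map_comap_eq_of_surjective (vB L e).surjective _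
  exact (Submodule.Quotient.equiv (tsub G e) S (vB L e) h1).finrank_eq.symm

end Data

/-- **The bounded power theorem for Tate classes.** -/
theorem core [IsTopologicalGroup Γ] (θ : Ω ≃+* ℂ) {Q : ClassPred T.W}
    {ψ : Pool.Agent.N996.FP.RForm T.W X} (hψ : Pool.Agent.N996.FP.IsPolarisation T X ψ)
    (hQH : ∀ n, Q.sp (pw X n) ≤ (hodgePred (toH T)).sp (pw X n))
    (hQT : QTate G Q) (hI : InvForm G (formL L ψ)) (hss : ActsSemisimply G) {w : ℕ}
    (hW : WeightGen Ω G w) {N : ℕ}
    (hN : (CentreAdj G (formL L ψ) ∧ N = max 4 (codim G)) ∨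
      (CentreZero Ω G ∧ N = max 4 (codim G ^ 2 / 4)) ∨
      N = max 4 ((max 1 w * codim G) ^ codim G))
    (hT : TateQ G Q (N - 1)) (n : ℕ) : TateQ G Q n := by
  rcases subsingleton_or_nontrivial (T.W.H X) with hs | hs
  · intro j x _
    have h5 : Subsingleton (T.W.H (pw X n)) := by
      have h6 : finrank T.W.K (T.W.H (pw X n)) = 0 := by
        rw [Pool.Agent.Y133.Half.finrank_pw, finrank_zero_of_subsingleton,
          zero_pow (Nat.succ_ne_zero n)]
      exact finrank_zero_iff.1 h6
    have h6 : ∀ y : L ⊗[T.W.K] T.W.H (pw X n), y = 0 := by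
      intro y
      induction y using TensorProduct.induction_on with
      | zero => rfl
      | add a b ha hb => rw [ha, hb, add_zero]
      | tmul l c => rw [Subsingleton.elim c 0, TensorProduct.tmul_zero]
    have h7 : x = 0 := h6 x
    rw [h7]
    exact Submodule.zero_mem _
  have hN4 : 4 ≤ N := by
    rcases hN with ⟨-, rfl⟩ | ⟨-, rfl⟩ | rfl <;> exact le_max_left _ _
  obtain ⟨ι, _, _, e, deg, hdeg, H, r, hQ, D⟩ := exists_crd (T := T) (G := G) θ hψ.toBP.isPHS hQH
    hQT hI hss hW hN4 hT
  have ht : Fintype.card ι ≤ codim G + finrank ℂ (RP.Z0 D.dat.hd) := by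
    rw [codim_eq (G := G) (e := e)]
    exact D.card_le fun b hb => tsub_TT hdeg hb
  refine tateQ_of hdeg (j := jj L θ) ?_
  rcases hN with ⟨h1, h2⟩ | ⟨h1, h2⟩ | h2
  · exact D.all_adj (fun u hu => adj_coord G hdeg hQ h1 hu) (by rw [h2]; exact le_max_right _ _)
      ht n
  · exact D.all_tr (fun y hy hc => cen_coord G hdeg θ h1 hy hc)
      (by rw [h2]; exact le_max_right _ _) ht n
  · exact D.all_gen (by rw [h2]; exact le_max_right _ _) ht n

end Pool.Agent.L0h10.RT
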