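import Pool.Agent.L0h10.RT.Geo1
import Pool.Agent.N996.BP.Main2

/-!
# The classes of the parity operator and of the form
-/

set_option linter.unusedSectionVars false

open CategoryTheory AlgebraicGeometry TensorProduct Matrix

universe u v

namespace Pool.Agent.L0h10.RT

open Module
open Pool.Agent.H914 Pool.Agent.H914.VarClass Pool.Agent.H914.VarClass.Obj
  Pool.Agent.H914.WeilCohomology
open Pool.Agent.Y121.AHS
open Pool.Agent.Y133.Half (pw pfst psnd wb wb_zero wb_succ ClassPred xp PH neg_pow_congr xp_mul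
  tr_xp xp_smul_left)
open Pool.Agent.Y121.AH (hodgePred)
open Pool.Agent.N996.BP Pool.Agent.N996.FP Pool.Agent.N996.BP.Geo
open Pool.Agent.L0h10.TS (GaloisAction IsTate cross_one isDeg_mapL mapL_em mapL_smL mapL_add
  mapL_zero smL_one emL_add emL_smul emL_zero exists_cl ve emL_clw cL toRep isT_iff isDeg_ve
  wb_mem hp desc_span ar2 ar2_inj ar2_surj kp_ar2 sum_fin2 GRep isTp_iff)
open Pool.Agent.L0h10.RQ

section Mat

variable {ι : Type} [Fintype ι] [DecidableEq ι] {deg : ι → ℕ} {L : Type} [Field L] [CharZero L]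
  {j : L →+* ℂ} {Γ : Type*} [Group Γ] [TopologicalSpace Γ] {P : GRep deg L Γ}

/-- The sign twist. -/
def sg {F : Type} [Ring F] (deg : ι → ℕ) (M : Matrix ι ι F) : Matrix ι ι F :=
  Matrix.of fun m n => (-1) ^ (deg m * deg n) * M m n

lemma sg_apply {F : Type} [Ring F] (M : Matrix ι ι F) (m n : ι) :
    sg deg M m n = (-1) ^ (deg m * deg n) * M m n := rfl

lemma sg_sg {F : Type} [Ring F] (M : Matrix ι ι F) : sg deg (sg deg M) = M := by
  ext m n
  rw [sg_apply, sg_apply, ← mul_assoc, ← pow_add, ← two_mul, pow_mul,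
    neg_one_sq, one_pow, one_mul]

lemma sg_mul {A M B : Matrix ι ι ℂ} (hA : ∀ i k, deg i ≠ deg k → A i k = 0)
    (hB : ∀ i k, deg i ≠ deg k → B i k = 0) : A * sg deg M * B = sg deg (A * M * B) := by
  ext i k
  rw [sg_apply, Matrix.mul_apply, Matrix.mul_apply, Finset.mul_sum]
  refine Finset.sum_congr rfl fun n _ => ?_
  by_cases hn : deg n = deg k
  · rw [Matrix.mul_apply, Matrix.mul_apply, ← mul_assoc, Finset.mul_sum]
    congr 1
    refine Finset.sum_congr rfl fun m _ => ?_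
    by_cases hm : deg i = deg m
    · rw [sg_apply, hm, hn]
      ring
    · rw [hA i m hm, zero_mul, zero_mul, mul_zero]
  · rw [hB n k hn, mul_zero, mul_zero, mul_zero]

/-- Matrices which are fixed by the normalised action. -/
def FixM (j : L →+* ℂ) (P : GRep deg L Γ) (Δ : OpenSubgroup Γ) (M : Matrix ι ι ℂ) : Prop :=
  ∀ g ∈ Δ, ∀ s : ℂ, s ^ 2 = j (P.χ g) → Rs j P s g * M * (Rs j P s g)ᵀ = M

lemma RsT_deg {s : ℂ} {g : Γ} {i k : ι} (h : deg i ≠ deg k) : (Rs j P s g)ᵀ i k = 0 := by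
  rw [Matrix.transpose_apply]
  exact Rs_deg (Ne.symm h)

lemma FixM.sg {Δ : OpenSubgroup Γ} {M : Matrix ι ι ℂ} (hM : FixM j P Δ M) :
    FixM j P Δ (sg deg M) := by
  intro g hg s hs
  rw [sg_mul (fun i k h => Rs_deg h) (fun i k h => RsT_deg h), hM g hg s hs]

lemma FixM.mono {Δ Δ' : OpenSubgroup Γ} (h : ∀ g, g ∈ Δ' → g ∈ Δ) {M : Matrix ι ι ℂ}
    (hM : FixM j P Δ M) : FixM j P Δ' M := fun g hg => hM g (h g hg)

/-- Multiplication by a diagonal matrix which depends only on the degrees. -/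
lemma FixM.diag {Δ : OpenSubgroup Γ} {M : Matrix ι ι ℂ} (hM : FixM j P Δ M) (f : ℕ → ℂ) :
    FixM j P Δ (Matrix.diagonal (fun i => f (deg i)) * M) := by
  intro g hg s hs
  have h1 : Rs j P s g * Matrix.diagonal (fun i => f (deg i)) =
      Matrix.diagonal (fun i => f (deg i)) * Rs j P s g := by
    ext i k
    rw [Matrix.mul_diagonal, Matrix.diagonal_mul]
    by_cases h : deg i = deg k
    · rw [h, mul_comm]
    · rw [Rs_deg h, zero_mul, mul_zero]
  rw [← Matrix.mul_assoc, h1, Matrix.mul_assoc, Matrix.mul_assoc, ← Matrix.mul_assoc (Rs j P s g),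
    hM g hg s hs]

/-- Fixed matrices give Tate arrays. -/
lemma FixM.TT {Δ : OpenSubgroup Γ} {M : Matrix ι ι ℂ} (hM : FixM j P Δ M)
    (hev : ∀ i k, M i k ≠ 0 → Even (deg i + deg k)) : ar2 M ∈ TT j P 1 := by
  refine mem_TT (Δ := Δ) (fun w hw => ?_) fun g hg => ?_
  · rw [Fin.sum_univ_two]
    exact hev _ _ hw
  · obtain ⟨s, hs⟩ := exists_sq (j (P.χ g))
    refine ⟨s, hs, ?_⟩
    have h1 := kp_ar2 (Rs j P s g) M
    rw [hM g hg s hs] at h1
    exact h1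

/-- Tate arrays are fixed. -/
lemma fix_isTp {n p : ℕ} {b : (Fin (n + 1) → ι) → L} (hb : P.IsTp n p b) :
    ∃ Δ : OpenSubgroup Γ, ∀ g ∈ Δ, ∀ s : ℂ, s ^ 2 = j (P.χ g) →
      kp (Fin (n + 1)) (Rs j P s g) *ᵥ (fun w => j (b w)) = fun w => j (b w) := by
  obtain ⟨h1, Δ, h2⟩ := hb
  refine ⟨Δ, fun g hg s hs => ?_⟩
  funext w
  have h3 := congrFun (h2 g hg) w
  rw [Pi.smul_apply, smul_eq_mul] at h3
  rw [Rs, kp_mul, ← Matrix.mulVec_mulVec, RQ.kp_diag, kp_cast']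
  by_cases hw : ∑ i, deg (w i) = 2 * p
  · rw [Finset.prod_pow_eq_pow_sum, hw, pow_mul, hs, ← map_pow, ← map_mul, h3]
  · have h4 : b w = 0 := by
      by_contra h5
      exact hw (h1 w h5)
    rw [h4] at h3 ⊢
    rcases mul_eq_zero.1 h3 with h5 | h5
    · exact absurd h5 (pow_ne_zero _ (chi_ne g))
    · beta_reduce
      rw [h5, map_zero, mul_zero]

lemma fixM_isTp {p : ℕ} {b : (Fin (1 + 1) → ι) → L} (hb : P.IsTp 1 p b) {M : Matrix ι ι ℂ}
    (hM : (fun w => j (b w)) = ar2 M) : ∃ Δ : OpenSubgroup Γ, FixM j P Δ M := by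
  obtain ⟨Δ, hΔ⟩ := fix_isTp (j := j) hb
  refine ⟨Δ, fun g hg s hs => ?_⟩
  have h1 := hΔ g hg s hs
  rw [hM] at h1
  exact ar2_inj ((kp_ar2 _ _).symm.trans h1)

/-- The product `Mᵀ Q M` is fixed. -/
lemma FixM.form {H : HData ι} {Δ : OpenSubgroup Γ} {M : Matrix ι ι ℂ} (hM : FixM j P Δ M)
    (hQ : InvQ j P H Δ) : FixM j P Δ (Mᵀ * cQ H.Qr * M) := by
  intro g hg s hs
  have h1 := hM g hg s hs
  have h2 := hQ g hg s hs
  have h3 := Rs_Ri hQ hg hs
  obtain ⟨R, hR⟩ : ∃ R, R = Rs j P s g := ⟨_, rfl⟩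
  obtain ⟨S, hS⟩ : ∃ S, S = Ri j P H s g := ⟨_, rfl⟩
  rw [← hR] at h1 h2 h3 ⊢
  rw [← hS] at h3
  have h4 : S * R = 1 := mul_eq_one_comm.1 h3
  have h5 : Rᵀ * Sᵀ = 1 := by rw [← Matrix.transpose_mul, h4, Matrix.transpose_one]
  have h6 : Sᵀ * Rᵀ = 1 := mul_eq_one_comm.1 h5
  have h7 : R * Mᵀ = Mᵀ * Sᵀ := by
    have h8 := congrArg Matrix.transpose h1
    rw [Matrix.transpose_mul, Matrix.transpose_mul, Matrix.transpose_transpose] at h8
    calc R * Mᵀ = R * (Mᵀ * Rᵀ) * Sᵀ := by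
          rw [Matrix.mul_assoc, Matrix.mul_assoc, h5, Matrix.mul_one]
      _ = _ := by rw [h8]
  have h8 : M * Rᵀ = S * M := by
    calc M * Rᵀ = (S * R) * M * Rᵀ := by rw [h4, Matrix.one_mul]
      _ = S * (R * M * Rᵀ) := by simp only [Matrix.mul_assoc]
      _ = _ := by rw [h1]
  have h9 : Sᵀ * cQ H.Qr * S = cQ H.Qr := by
    calc Sᵀ * cQ H.Qr * S = Sᵀ * (Rᵀ * cQ H.Qr * R) * S := by rw [h2]
      _ = (Sᵀ * Rᵀ) * cQ H.Qr * (R * S) := by simp only [Matrix.mul_assoc]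
      _ = _ := by rw [h6, h3, Matrix.one_mul, Matrix.mul_one]
  calc R * (Mᵀ * cQ H.Qr * M) * Rᵀ = (R * Mᵀ) * cQ H.Qr * (M * Rᵀ) := by
        simp only [Matrix.mul_assoc]
    _ = Mᵀ * (Sᵀ * cQ H.Qr * S) * M := by rw [h7, h8]; simp only [Matrix.mul_assoc]
    _ = _ := by rw [h9]

end Mat

variable {k : Type u} [Field k] {𝒱 : VarClass k} {ops : CycleOps 𝒱} {T : HodgeTheory ops}
  {X : 𝒱.Obj} {ι : Type} [Fintype ι] [DecidableEq ι] {e : Basis ι T.W.K (T.W.H X)} {deg : ι → ℕ}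
  (hdeg : ∀ i, e i ∈ T.W.gr X (deg i))

lemma wb_two (i m : ι) : wb e 1 ![i, m] = xp T.W (e i) (e m) := by
  have h1 : wb e (0 + 1) ![i, m] = T.W.map (pfst X 0) (wb e 0 fun k => ![i, m] k.castSucc) *
      T.W.map (psnd X 0) (e (![i, m] (Fin.last _))) := wb_succ e _ _
  have h2 : wb e 0 (fun k => ![i, m] k.castSucc) = e i := wb_zero e _
  rw [h2] at h1
  exact h1

/-- Classes on `X × X` in coordinates. -/
lemma clw_one (a : (Fin (1 + 1) → ι) → ℚ) :
    clw e 1 a = ∑ i, ∑ m, ((a ![i, m] : ℚ) : T.W.K) • xp T.W (e i) (e m) := by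
  rw [clw, sum_fin2]
  refine Finset.sum_congr rfl fun i _ => Finset.sum_congr rfl fun m _ => ?_
  rw [wb_two]
  rfl

/-- The matrix of a rational array. -/
def mq (a : (Fin (1 + 1) → ι) → ℚ) : Matrix ι ι ℚ := Matrix.of fun i m => a ![i, m]

lemma ar2_mq (a : (Fin (1 + 1) → ι) → ℚ) : ar2 (mq a) = a := by
  funext w
  change a ![w 0, w 1] = a w
  congr 1
  funext k
  fin_cases k <;> rfl

lemma ca_mq (a : (Fin (1 + 1) → ι) → ℚ) : ar2 (cQ (mq a)) = ca a := by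
  have h1 : ar2 (cQ (mq a)) = ca (ar2 (mq a)) := rfl
  rw [h1, ar2_mq]

variable (T X) in
/-- The class of the diagonal. -/
noncomputable def dl : T.W.H (pw X 1) := T.W.push (diag X) 1

include hdeg in
/-- The array of the class of the parity operator. -/
lemma dp_arr {a : (Fin (1 + 1) → ι) → ℚ} (ha : clw e 1 a = dl T X) :
    clw e 1 (ar2 (Matrix.diagonal (fun i => (-1 : ℚ) ^ deg i) * mq a)) = dp T.W X := by
  have h1 : dp T.W X = H914.extOp T.W (H914.par (T.W.isInternal X)) 1 (dl T X) := rfl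
  rw [h1, ← ha, clw_one, clw_one, map_sum]
  refine Finset.sum_congr rfl fun i _ => ?_
  rw [map_sum]
  refine Finset.sum_congr rfl fun m _ => ?_
  have h2 : H914.extOp T.W (H914.par (T.W.isInternal X)) 1 (xp T.W (e i) (e m)) =
      xp T.W (H914.par (T.W.isInternal X) (e i)) (e m) := H914.extOp_tmul _ _ _ _
  have h3 : ar2 (Matrix.diagonal (fun i => (-1 : ℚ) ^ deg i) * mq a) ![i, m] =
      (-1 : ℚ) ^ deg i * a ![i, m] := by
    change (Matrix.diagonal (fun i => (-1 : ℚ) ^ deg i) * mq a) i m = _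
    rw [Matrix.diagonal_mul]
    rfl
  rw [map_smul, h2, PH.par (PH.of (hdeg i)), xp_smul_left, smul_smul, h3]
  congr 1
  push_cast
  ring

end Pool.Agent.L0h10.RT
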