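import Pool.Agent.L0h10.RQ.Crd
import Pool.Agent.L0h10.RQ.Red
import Pool.Agent.L0h10.RT.Geo2

/-!
# The centre of the commutant of the Lie algebra
-/

set_option linter.unusedSectionVars false

namespace Pool.Agent.L0h10.RQ

open Matrix
open Pool.Agent.N996.BP Pool.Agent.N996.FP
open Pool.Agent.L0h10.TS (ar2 ar2_inj ar2_surj dk_ar2 kp_ar2 dk_rei dk_empty dk_mulVec_apply GRep
  desc_sol desc_span dv dv_eq dv_map cL)

variable {ι : Type} [Fintype ι] [DecidableEq ι]

section Dat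

variable {H : HData ι} {A : ∀ n : ℕ, Submodule ℚ ((Fin (n + 1) → ι) → ℚ)}
  {T : ∀ n : ℕ, Submodule ℂ ((Fin (n + 1) → ι) → ℂ)} {w : ℕ} (D : Dat H A T w)

/-- The Lie algebra. -/
lemma Dat.mem_ho {z : Matrix ι ι ℂ} : z ∈ RP.ho D.hd ↔ z ∈ LT T := by
  constructor
  · intro hz n c hc
    exact hz _ _ (D.mem_BB.2 hc)
  · intro hz κ _ _ a ha
    rcases isEmpty_or_nonempty κ with hκ' | hκ'
    · exact dk_empty _ _
    · obtain ⟨n, ⟨e⟩⟩ := RFam.exists_eqv κ
      have h1 := hz n _ (D.mem_BB.1 (D.BB_rei' e ha))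
      rw [dk_rei] at h1
      funext w'
      have h4 := congrFun h1 (w' ∘ e.symm)
      rw [rei] at h4
      have h5 : (w' ∘ e.symm) ∘ e = w' := by
        funext k
        simp
      rw [h5] at h4
      exact h4

lemma Dat.mem_hn {z : Matrix ι ι ℂ} : z ∈ RP.hn D.hd ↔ RP.cj D.hd z ∈ LT T := D.mem_ho

/-- The commutant. -/
lemma Dat.isHE_iff {x : Matrix ι ι ℂ} :
    RP.IsHE D.hd x ↔ ∀ y ∈ LT T, y * x = x * y := by
  constructor
  · intro hx y hy
    exact hx.comm_ho (D.mem_ho.2 hy)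
  · intro h σ t _
    have h1 : ∀ k ∈ Finset.Icc (-w : ℤ) w, x * D.hd.π σ k = D.hd.π σ k * x := fun k hk =>
      (isPj_pS σ).comm (h _ σ.2.1).symm hk
    change D.hd.l σ t * x = x * D.hd.l σ t
    rw [D.hd.l_apply, Finset.mul_sum, Finset.sum_mul]
    refine Finset.sum_congr rfl fun k hk => ?_
    rw [Matrix.mul_smul, Matrix.smul_mul, h1 k hk]

lemma Dat.isC_iff {x : Matrix ι ι ℂ} :
    RP.IsC D.hd x ↔ (∀ y ∈ LT T, y * x = x * y) ∧
      ∀ x', (∀ y ∈ LT T, y * x' = x' * y) → x * x' = x' * x :=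
  and_congr D.isHE_iff (forall_congr' fun _ => imp_congr D.isHE_iff Iff.rfl)

end Dat

variable {deg : ι → ℕ} {L : Type} [Field L] [CharZero L]
  {j : L →+* ℂ} {Γ : Type*} [Group Γ] [TopologicalSpace Γ] {P : GRep deg L Γ}
  {H : HData ι} {A : ∀ n : ℕ, Submodule ℚ ((Fin (n + 1) → ι) → ℚ)} {w N : ℕ}

/-- Tate arrays are fixed by an open subgroup. -/
lemma TT_fix {n : ℕ} {c : (Fin (n + 1) → ι) → ℂ} (hc : c ∈ TT j P n) :
    ∃ Δ : OpenSubgroup Γ, ∀ g ∈ Δ, ∀ s : ℂ, s ^ 2 = j (P.χ g) →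
      kp (Fin (n + 1)) (Rs j P s g) *ᵥ c = c := by
  induction hc using Submodule.span_induction with
  | mem x hx =>
    obtain ⟨b, ⟨p, hb⟩, rfl⟩ := hx
    exact RT.fix_isTp hb
  | zero => exact ⟨⊤, fun g _ s _ => Matrix.mulVec_zero _⟩
  | add a b _ _ ha hb =>
    obtain ⟨Δ, h1⟩ := ha
    obtain ⟨Δ', h2⟩ := hb
    refine ⟨Δ ⊓ Δ', fun g hg s hs => ?_⟩
    rw [Matrix.mulVec_add, h1 g (OpenSubgroup.mem_inf.1 hg).1 s hs,
      h2 g (OpenSubgroup.mem_inf.1 hg).2 s hs]
  | smul r a _ ha =>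
    obtain ⟨Δ, h1⟩ := ha
    refine ⟨Δ, fun g hg s hs => ?_⟩
    rw [Matrix.mulVec_smul, h1 g hg s hs]

/-- Solutions of linear equations. -/
lemma comm_desc (S : Set (Matrix ι ι L)) {y : Matrix ι ι ℂ}
    (h : ∀ a ∈ S, y * a.map j = a.map j * y) :
    y ∈ Submodule.span ℂ {x | ∃ u : Matrix ι ι L, (∀ a ∈ S, u * a = a * u) ∧ x = u.map j} := by
  let M : S × ι × ι → ι × ι → L := fun s p =>
    (if p.1 = s.2.1 then s.1.1 p.2 s.2.2 else 0) - if p.2 = s.2.2 then s.1.1 s.2.1 p.1 else 0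
  have hsum : ∀ {R : Type} [CommRing R] (φ : L →+* R) (s : S × ι × ι) (y : Matrix ι ι R),
      ∑ p : ι × ι, φ (M s p) * y p.1 p.2 =
        (y * s.1.1.map φ) s.2.1 s.2.2 - (s.1.1.map φ * y) s.2.1 s.2.2 := by
    intro R _ φ s y
    simp only [M, map_sub, sub_mul, Finset.sum_sub_distrib]
    congr 1
    · rw [Fintype.sum_prod_type, Finset.sum_eq_single s.2.1, Matrix.mul_apply]
      · refine Finset.sum_congr rfl fun q _ => ?_
        rw [if_pos rfl, Matrix.map_apply, mul_comm]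
      · intro p _ hp
        refine Finset.sum_eq_zero fun q _ => ?_
        rw [if_neg hp, map_zero, zero_mul]
      · intro h; exact absurd (Finset.mem_univ _) h
    · rw [Fintype.sum_prod_type_right, Finset.sum_eq_single s.2.2, Matrix.mul_apply]
      · refine Finset.sum_congr rfl fun q _ => ?_
        rw [if_pos rfl, Matrix.map_apply]
      · intro p _ hp
        refine Finset.sum_eq_zero fun q _ => ?_
        rw [if_neg hp, map_zero, zero_mul]
      · intro h; exact absurd (Finset.mem_univ _) h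
  have h1 := desc_sol j M (v := fun p => y p.1 p.2) fun s => by
    rw [hsum j s y, h _ s.1.2, sub_self]
  let φ : (ι × ι → ℂ) →ₗ[ℂ] Matrix ι ι ℂ :=
    { toFun := fun v => Matrix.of fun i k => v (i, k)
      map_add' := fun a b => rfl
      map_smul' := fun c a => rfl }
  have h2 := Submodule.mem_map_of_mem (f := φ) h1
  rw [Submodule.map_span] at h2
  have h3 : φ (fun p => y p.1 p.2) = y := rfl
  rw [h3] at h2
  refine Submodule.span_mono ?_ h2
  rintro _ ⟨_, ⟨u, hu, rfl⟩, rfl⟩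
  refine ⟨Matrix.of fun i k => u (i, k), fun a ha => ?_, rfl⟩
  ext i k
  have h4 := hu (⟨a, ha⟩, i, k)
  have h5 := hsum (RingHom.id L) (⟨a, ha⟩, i, k) (Matrix.of fun i k => u (i, k))
  simp only [RingHom.id_apply] at h5
  have h6 : a.map (RingHom.id L) = a := by
    ext i k; rfl
  rw [h6] at h5
  have h7 := h5.symm.trans h4
  exact sub_eq_zero.1 h7

variable (P) in
/-- The endomorphisms of the representation: degree preserving matrices which commute with an open
subgroup. -/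
def IsE (a : Matrix ι ι L) : Prop :=
  (∀ i k, deg i ≠ deg k → a i k = 0) ∧ ∃ Δ : OpenSubgroup Γ, ∀ g ∈ Δ, a * P.R g = P.R g * a

variable (P) in
/-- The centre of the algebra of the endomorphisms. -/
def IsCE (u : Matrix ι ι L) : Prop := IsE P u ∧ ∀ a, IsE P a → u * a = a * u

namespace Crd

variable [IsTopologicalGroup Γ] (D : Crd deg j P H A w N)
include D

lemma LT_E {a : Matrix ι ι L} (ha : IsE P a) {y : Matrix ι ι ℂ} (hy : y ∈ LT (TT j P)) :
    y * a.map j = a.map j * y := by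
  obtain ⟨Δ, hQ⟩ := D.form
  obtain ⟨h1, Δ', h2⟩ := ha
  refine LT_comm D.hd hQ (comm_TT D.hd hQ (Δ' := Δ') (fun i k h => ?_) fun g hg => ?_) hy
  · rw [Matrix.map_apply, h1 i k h, map_zero]
  · rw [← map_mul_j, h2 g hg, map_mul_j]

/-- Diagonal matrices which depend only on the degree. -/
lemma diag_E (f : ℕ → L) : IsE P (Matrix.diagonal fun i => f (deg i)) := by
  refine ⟨fun i k h => ?_, ⊤, fun g _ => ?_⟩
  · rw [Matrix.diagonal_apply_ne]
    rintro rfl
    exact h rfl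
  · ext i k
    rw [Matrix.diagonal_mul, Matrix.mul_diagonal]
    by_cases h : deg i = deg k
    · rw [h, mul_comm]
    · rw [P.deg' g i k h, zero_mul, mul_zero]

/-- The commutant of the Lie algebra consists of combinations of Tate arrays. -/
lemma comm_TT' {y : Matrix ι ι ℂ} (hy : ∀ z ∈ LT (TT j P), z * y = y * z) :
    ar2 (y * cQ H.Qir) ∈ TT j P 1 := by
  obtain ⟨Δ, hQ⟩ := D.form
  refine D.gen 1 _ fun z hz _ => ?_
  rw [dk_ar2]
  have h3 : cQ H.Qir * zᵀ = -(z * cQ H.Qir) := by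
    rw [eq_neg_iff_add_eq_zero, add_comm]; exact LT_skew D.hd hQ hz
  rw [Matrix.mul_assoc y, h3, Matrix.mul_neg, ← Matrix.mul_assoc, hy z hz, Matrix.mul_assoc,
    add_neg_cancel]
  rfl

/-- The centre of the commutant is defined over `L`. -/
lemma isC_span {y : Matrix ι ι ℂ} (hy : RP.IsC D.dat.hd y) :
    y ∈ Submodule.span ℂ {x | ∃ u : Matrix ι ι L, IsCE P u ∧ x = u.map j} := by
  obtain ⟨h1, h2⟩ := D.dat.isC_iff.1 hy
  obtain ⟨Δ, hQ⟩ := D.form
  -- the matrix commutes with the endomorphisms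
  have hE : ∀ a : Matrix ι ι L, IsE P a → y * a.map j = a.map j * y := fun a ha =>
    h2 _ fun z hz => D.LT_E ha hz
  have hdeg : ∀ i k, deg i ≠ deg k → y i k = 0 := by
    intro i k hik
    have h3 := hE _ (D.diag_E fun n => if n = deg k then 1 else 0)
    have h4 := congrFun (congrFun h3 i) k
    have h5 : (Matrix.diagonal fun i => (if deg i = deg k then (1 : L) else 0)).map j =
        Matrix.diagonal fun i => if deg i = deg k then (1 : ℂ) else 0 := by
      ext a b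
      rw [Matrix.map_apply, Matrix.diagonal_apply, Matrix.diagonal_apply]
      split_ifs <;> simp
    rw [h5, Matrix.mul_diagonal, Matrix.diagonal_mul, if_pos rfl, if_neg hik, mul_one,
      zero_mul] at h4
    exact h4
  -- it commutes with an open subgroup
  obtain ⟨Δ', hΔ'⟩ := TT_fix (D.comm_TT' h1)
  have hR : ∀ g ∈ Δ ⊓ Δ', y * (P.R g).map j = (P.R g).map j * y := by
    intro g hg
    obtain ⟨hg1, hg2⟩ := OpenSubgroup.mem_inf.1 hg
    obtain ⟨s, hs⟩ := exists_sq (j (P.χ g))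
    have hs0 : s ≠ 0 := by
      rintro rfl
      apply chi_ne (P := P) g
      have h1 : j (P.χ g) = 0 := by rw [← hs]; ring
      exact (map_eq_zero j).1 h1
    have h3 := hΔ' g hg2 s hs
    rw [kp_ar2] at h3
    have h4 : Rs j P s g * (y * cQ H.Qir) * (Rs j P s g)ᵀ = y * cQ H.Qir := ar2_inj h3
    have h5 := Rs_Qi hQ hg1 hs
    have h6 := Ri_Rs hQ hg1 hs
    rw [Ri] at h6
    obtain ⟨R, hRR⟩ : ∃ R, R = Rs j P s g := ⟨_, rfl⟩
    rw [← hRR] at h4 h5 h6
    have h7 : R * y = y * R := by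
      calc R * y = R * y * (cQ H.Qir * Rᵀ * cQ H.Qr * R) := by rw [h6, Matrix.mul_one]
        _ = (R * (y * cQ H.Qir) * Rᵀ) * cQ H.Qr * R := by simp only [Matrix.mul_assoc]
        _ = y * (R * cQ H.Qir * Rᵀ) * cQ H.Qr * R := by rw [h4, h5]
        _ = y * R * (cQ H.Qir * Rᵀ * cQ H.Qr * R) := by simp only [Matrix.mul_assoc]
        _ = y * R := by rw [h6, Matrix.mul_one]
    rw [hRR, Rs] at h7
    have h8 : Matrix.diagonal (fun i => s ^ deg i) * y =
        y * Matrix.diagonal (fun i => s ^ deg i) := by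
      ext i k
      rw [Matrix.diagonal_mul, Matrix.mul_diagonal]
      by_cases h : deg i = deg k
      · rw [h, mul_comm]
      · rw [hdeg i k h, zero_mul, mul_zero]
    rw [← Matrix.mul_assoc y, ← h8, Matrix.mul_assoc, Matrix.mul_assoc] at h7
    have h9 : Matrix.diagonal (fun i => (s ^ deg i)⁻¹) *
        Matrix.diagonal (fun i => s ^ deg i) = (1 : Matrix ι ι ℂ) := by
      rw [Matrix.diagonal_mul_diagonal, ← Matrix.diagonal_one]
      congr 1
      funext i
      exact inv_mul_cancel₀ (pow_ne_zero _ hs0)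
    have h10 := congrArg (fun z => Matrix.diagonal (fun i => (s ^ deg i)⁻¹) * z) h7
    beta_reduce at h10
    rw [← Matrix.mul_assoc, h9, Matrix.one_mul, ← Matrix.mul_assoc, h9, Matrix.one_mul] at h10
    exact h10.symm
  have h3 := comm_desc (j := j) ({a | IsE P a} ∪ {a | ∃ g ∈ Δ ⊓ Δ', a = P.R g}) (y := y) (by
    rintro a (ha | ⟨g, hg, rfl⟩)
    · exact hE a ha
    · exact hR g hg)
  refine Submodule.span_mono ?_ h3
  rintro _ ⟨u, hu, rfl⟩
  refine ⟨u, ⟨⟨fun i k hik => ?_, Δ ⊓ Δ', fun g hg => hu _ (Or.inr ⟨g, hg, rfl⟩)⟩,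
    fun a ha => hu a (Or.inl ha)⟩, rfl⟩
  have h4 := congrFun (congrFun (hu _ (Or.inl (D.diag_E fun n => if n = deg k then 1 else 0))) i) k
  rw [Matrix.mul_diagonal, Matrix.diagonal_mul, if_pos rfl, if_neg hik, mul_one, zero_mul] at h4
  exact h4

end Crd

end Pool.Agent.L0h10.RQ
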