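import Pool.Agent.L0h10.RT.Cas

/-!
# The three cases of the bounded power theorem in coordinates
-/

set_option linter.unusedSectionVars false

namespace Pool.Agent.L0h10.RQ

open Matrix Module TensorProduct ComplexOrder
open Pool.Agent.N996.BP Pool.Agent.N996.FP
open Pool.Agent.L0h10.TS (ar2 ar2_inj ar2_surj dk_ar2 kp_ar2 dk_rei dk_empty dk_mulVec_apply GRep
  desc_sol desc_span dv dv_eq dv_map cL)

variable {ι : Type} [Fintype ι] [DecidableEq ι]

/-- Dimensions do not decrease under the extension of the coefficients. -/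
lemma finrank_le_of {L : Type} [Field L] (j : L →+* ℂ) {S : Submodule L (ι → L)}
    {Z : Submodule ℂ (ι → ℂ)} (h : ∀ b ∈ S, (fun i => j (b i)) ∈ Z) :
    finrank L S ≤ finrank ℂ Z := by
  let _ : Algebra L ℂ := j.toAlgebra
  let f : (ℂ ⊗[L] S) →ₗ[ℂ] (ι → ℂ) :=
    (TensorProduct.piScalarRight L ℂ ℂ ι).toLinearMap ∘ₗ S.subtype.baseChange ℂ
  have hf1 : ∀ (z : ℂ) (c : S), f (z ⊗ₜ[L] c) = z • fun i => j ((c : ι → L) i) := by
    intro z c
    change (TensorProduct.piScalarRight L ℂ ℂ ι) (S.subtype.baseChange ℂ (z ⊗ₜ[L] c)) = _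
    rw [LinearMap.baseChange_tmul]
    funext i
    rw [TensorProduct.piScalarRight_apply, TensorProduct.piScalarRightHom_tmul, Pi.smul_apply,
      smul_eq_mul, mul_comm]
    rfl
  have hf : ∀ y, f y ∈ Z := by
    intro y
    induction y using TensorProduct.induction_on with
    | zero => rw [map_zero]; exact Submodule.zero_mem _
    | tmul z c =>
      rw [hf1]
      exact Submodule.smul_mem _ z (h c c.2)
    | add a b ha hb => rw [map_add]; exact Submodule.add_mem _ ha hb
  have hinj : Function.Injective f := by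
    have h1 : Function.Injective (S.subtype.baseChange ℂ) :=
      Module.Flat.lTensor_preserves_injective_linearMap (M := ℂ) _ S.injective_subtype
    exact (TensorProduct.piScalarRight L ℂ ℂ ι).injective.comp h1
  have h3 := LinearMap.finrank_le_finrank_of_injective (f := f.codRestrict Z hf)
    (fun a b hab => hinj (congrArg Subtype.val hab))
  rwa [Module.finrank_baseChange] at h3

section Dat

variable {H : HData ι} {A : ∀ n : ℕ, Submodule ℚ ((Fin (n + 1) → ι) → ℚ)}
  {T : ∀ n : ℕ, Submodule ℂ ((Fin (n + 1) → ι) → ℂ)} {w : ℕ} (D : Dat H A T w)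
include D

/-- The Lie algebra is stable under the adjoint. -/
lemma Dat.exists_star {z : Matrix ι ι ℂ} (hz : z ∈ LT T) :
    ∃ z' ∈ LT T, (nz H z')ᴴ = nz H z := by
  have e1 : ∀ x, RP.cji D.hd x = nz H x := fun x => rfl
  have h1 : RP.cji D.hd z ∈ RP.hn D.hd := by
    rw [D.mem_hn, RP.cj_cji]
    exact hz
  have h2 := (RP.isLA_hn D.hd).star _ h1
  refine ⟨_, D.mem_hn.1 h2, ?_⟩
  rw [← e1, RP.cji_cj, Matrix.conjTranspose_conjTranspose, e1]

/-- The trace form is nondegenerate. -/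
lemma Dat.tr_zero {x : Matrix ι ι ℂ} (hx : x ∈ LT T) (h : ∀ z ∈ LT T, (x * z).trace = 0) :
    x = 0 := by
  obtain ⟨z, hz, h1⟩ := D.exists_star hx
  obtain ⟨z', hz', h2⟩ := D.exists_star hz
  have h3 : (nz H x * (nz H x)ᴴ).trace = 0 := by
    have h4 : (nz H x)ᴴ = nz H z := by rw [← h1, Matrix.conjTranspose_conjTranspose]
    rw [h4, ← nz_mul, nz_trace]
    exact h z hz
  have h4 : nz H x = 0 := by
    have h5 : (nz H x)ᴴ = 0 := by
      have h6 : (((nz H x)ᴴ)ᴴ * (nz H x)ᴴ).trace = 0 := by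
        rw [Matrix.conjTranspose_conjTranspose]; exact h3
      exact Matrix.trace_conjTranspose_mul_self_eq_zero_iff.1 h6
    rw [← Matrix.conjTranspose_conjTranspose (nz H x), h5, Matrix.conjTranspose_zero]
  apply nz_inj (H := H)
  rw [h4, nz, Matrix.mul_zero, Matrix.zero_mul]

/-- If the centre of the Lie algebra is zero, then the matrices which commute with the Lie algebra
are orthogonal to it. -/
lemma Dat.tr_comm (hcen : ∀ y ∈ LT T, (∀ z ∈ LT T, y * z = z * y) → y = 0)
    {y : Matrix ι ι ℂ} (hy : ∀ z ∈ LT T, z * y = y * z) {z : Matrix ι ι ℂ} (hz : z ∈ LT T) :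
    (y * z).trace = 0 := by
  obtain ⟨u, hu, h1⟩ := exists_dec (H := H) (LT T) y
  have h2 : ∀ z ∈ LT T, (y * z).trace = (u * z).trace := by
    intro z hz
    obtain ⟨z', hz', h3⟩ := D.exists_star hz
    have h4 := h1 z' hz'
    rw [h3, ← nz_mul, nz_trace, Matrix.sub_mul, Matrix.trace_sub, sub_eq_zero] at h4
    exact h4
  have h3 : u = 0 := by
    refine hcen u hu fun a ha => ?_
    have h4 : br u a = 0 := by
      refine D.tr_zero (LT_br hu ha) fun b hb => ?_
      have h5 := h2 _ (LT_br ha hb)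
      have h6 : (y * br a b).trace = 0 := by
        rw [br, Matrix.mul_sub, Matrix.trace_sub, sub_eq_zero]
        calc (y * (a * b)).trace = ((a * y) * b).trace := by
              rw [hy a ha, Matrix.mul_assoc]
          _ = (y * b * a).trace := by
              rw [Matrix.mul_assoc, Matrix.trace_mul_comm]
          _ = _ := by rw [Matrix.mul_assoc]
      rw [h6] at h5
      rw [h5, br, br, Matrix.sub_mul, Matrix.mul_sub, Matrix.trace_sub, Matrix.trace_sub]
      congr 1
      · rw [Matrix.mul_assoc]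
      · rw [Matrix.mul_assoc a, Matrix.trace_mul_comm, Matrix.mul_assoc]
    exact sub_eq_zero.1 h4
  rw [h2 z hz, h3, Matrix.zero_mul, Matrix.trace_zero]

end Dat

variable {deg : ι → ℕ} {L : Type} [Field L] [CharZero L]
  {j : L →+* ℂ} {Γ : Type*} [Group Γ] [TopologicalSpace Γ] {P : GRep deg L Γ}
  {H : HData ι} {A : ∀ n : ℕ, Submodule ℚ ((Fin (n + 1) → ι) → ℚ)} {w N : ℕ}

namespace Crd

variable [IsTopologicalGroup Γ] (D : Crd deg j P H A w N)
include D

/-- The number of the Tate classes. -/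
lemma card_le {S : Submodule L (ι → L)}
    (hS : ∀ b ∈ S, (fun w : Fin (0 + 1) → ι => j (b (w 0))) ∈ TT j P 0) :
    Fintype.card ι ≤ finrank L ((ι → L) ⧸ S) + finrank ℂ (RP.Z0 D.dat.hd) := by
  let M : (ι → ℂ) ≃ₗ[ℂ] (ι → ℂ) :=
    { toFun := fun v => RP.Mm D.dat.hd *ᵥ v
      map_add' := fun a b => Matrix.mulVec_add _ a b
      map_smul' := fun c v => Matrix.mulVec_smul _ c v
      invFun := fun v => RP.Mi D.dat.hd *ᵥ v
      left_inv := fun v => by
        beta_reduce
        rw [Matrix.mulVec_mulVec, RP.Mi_Mm, Matrix.one_mulVec]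
      right_inv := fun v => by
        beta_reduce
        rw [Matrix.mulVec_mulVec, RP.Mm_Mi, Matrix.one_mulVec] }
  have h1 : finrank L S ≤ finrank ℂ ((RP.Z0 D.dat.hd).comap M.toLinearMap) := by
    refine finrank_le_of j fun b hb => ?_
    intro z hz
    have h2 := (D.dat.mem_hn.1 hz) 0 _ (hS b hb)
    have h3 : RP.cj D.dat.hd z *ᵥ (fun i => j (b i)) = 0 := by
      funext i
      have h4 := congrFun h2 fun _ => i
      rw [dv_eq, TS.dv_one] at h4
      exact h4
    change z *ᵥ (RP.Mm D.dat.hd *ᵥ fun i => j (b i)) = 0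
    have h5 := congrArg (fun v => RP.Mm D.dat.hd *ᵥ v) h3
    beta_reduce at h5
    rw [Matrix.mulVec_zero, RP.cj, Matrix.mulVec_mulVec, ← Matrix.mul_assoc, ← Matrix.mul_assoc,
      RP.Mm_Mi, Matrix.one_mul, ← Matrix.mulVec_mulVec] at h5
    exact h5
  have h2 : finrank ℂ ((RP.Z0 D.dat.hd).comap M.toLinearMap) = finrank ℂ (RP.Z0 D.dat.hd) := by
    have h3 := (M.submoduleMap ((RP.Z0 D.dat.hd).comap M.toLinearMap)).finrank_eq
    have h4 : ((RP.Z0 D.dat.hd).comap M.toLinearMap).map M.toLinearMap = RP.Z0 D.dat.hd :=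
      Submodule.map_comap_eq_of_surjective M.surjective _
    rw [h3]
    exact congrArg (fun p : Submodule ℂ (ι → ℂ) => finrank ℂ p) h4
  have h3 := Submodule.finrank_quotient_add_finrank S
  rw [Module.finrank_fintype_fun_eq_card] at h3
  omega

/-- **Self-adjoint centres.** -/
theorem all_adj (hadj : ∀ u, IsCE P u → u.map j * cQ H.Qir = cQ H.Qir * (u.map j)ᵀ) {t : ℕ}
    (htN : t ≤ N) (ht : Fintype.card ι ≤ t + finrank ℂ (RP.Z0 D.dat.hd)) (n : ℕ) :
    ∀ c ∈ TT j P n, c ∈ AC A (Fin (n + 1)) := by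
  refine D.all (fun g hfix => RP.fix_adj (fun y hy => ?_) D.hN htN ht hfix) n
  have h1 := D.isC_span hy
  have e1 : RP.cQ (D.dat.hd).Qir = cQ H.Qir := by
    change RP.cR H.D.Qi = cQ H.Qir
    rw [H.hQir]
    ext i k
    change (((H.Qir i k : ℚ) : ℝ) : ℂ) = ((H.Qir i k : ℚ) : ℂ)
    push_cast
    rfl
  rw [e1, RP.cQ_eq]
  clear hy
  induction h1 using Submodule.span_induction with
  | mem x hx => obtain ⟨u, hu, rfl⟩ := hx; exact hadj u hu
  | zero => rw [Matrix.zero_mul, Matrix.transpose_zero, Matrix.mul_zero]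
  | add a b _ _ ha hb => rw [Matrix.add_mul, ha, hb, Matrix.transpose_add, Matrix.mul_add]
  | smul r a _ ha => rw [Matrix.smul_mul, ha, Matrix.transpose_smul, Matrix.mul_smul]

/-- **Semisimple Lie algebras.** -/
theorem all_tr (hcen : ∀ y ∈ LT (TT j P), (∀ z ∈ LT (TT j P), y * z = z * y) → y = 0) {t : ℕ}
    (htN : t ^ 2 / 4 ≤ N) (ht : Fintype.card ι ≤ t + finrank ℂ (RP.Z0 D.dat.hd)) (n : ℕ) :
    ∀ c ∈ TT j P n, c ∈ AC A (Fin (n + 1)) := by
  refine D.all (fun g hfix => RP.fix_tr (fun σ y hy => ?_) D.hN htN ht hfix) n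
  obtain ⟨h1, -⟩ := D.dat.isC_iff.1 hy
  rw [D.dat.Ng_eq]
  exact D.dat.tr_comm hcen h1 σ.2.1

/-- **The general case.** -/
theorem all_gen {t : ℕ} (htN : (max 1 w * t) ^ t ≤ N)
    (ht : Fintype.card ι ≤ t + finrank ℂ (RP.Z0 D.dat.hd)) (n : ℕ) :
    ∀ c ∈ TT j P n, c ∈ AC A (Fin (n + 1)) :=
  D.all (fun _ hfix => RP.fix_gen (le_max_left 1 w) (le_max_right 1 w) D.hN htN ht hfix) n

end Crd

end Pool.Agent.L0h10.RQ
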