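import Pool.Agent.L0h10.RT.Geo7
import Pool.Agent.L0h10.RT.Cas2

/-!
# The bounded power theorem for Tate classes
-/

set_option linter.unusedSectionVars false

open CategoryTheory AlgebraicGeometry TensorProduct Matrix

universe u v

namespace Pool.Agent.L0h10.RT

open Module
open Pool.Agent.H914 Pool.Agent.H914.VarClass Pool.Agent.H914.VarClass.Obj
  Pool.Agent.H914.WeilCohomology
open Pool.Agent.Y121.AHS
open Pool.Agent.Y133.Half (pw pfst psnd wb wb_zero wb_succ ClassPred PH)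
open Pool.Agent.Y121.AH (hodgePred)
open Pool.Agent.N996.BP Pool.Agent.N996.FP Pool.Agent.N996.BP.Geo
open Pool.Agent.N996.FP.Geo (form_gr adj_of_fM)
open Pool.Agent.L0h10.TS (GaloisAction IsTate cross_one isDeg_mapL mapL_em mapL_smL mapL_add
  mapL_zero smL_one emL_add emL_smul emL_zero exists_cl ve ve_zero emL_clw cL toRep isT_iff
  isDeg_ve wb_mem hp desc_span ar2 ar2_inj ar2_surj kp_ar2 sum_fin2 GRep isTp_iff vB vB_apply
  gal_vB mt isDeg_vB Q_gr Operators IsInfinitesimal KillsTate opOf opOf_zero opOf_inf inf_eq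
  opOf_kill up_ve up IsComb jj vB_inj vB_smul smL_eq ActsSemisimply ss_coord mt_spec IsLin
  map_mul_th)
open Pool.Agent.L0h10.RQ

variable {k : Type u} [Field k] {𝒱 : VarClass k} {ops : CycleOps 𝒱} {T : HodgeTheory ops}
  {X : 𝒱.Obj} {L Ω : Type} [Field L] [Field Ω] [Algebra T.W.K L] [Algebra T.W.K Ω] [Algebra L Ω]
  [IsScalarTower T.W.K L Ω] {Γ : Type v} [Group Γ] [TopologicalSpace Γ] (G : GaloisAction T X Γ L)

/-- The endomorphisms of the representation `H(X, L)` of open subgroups. -/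
structure IsTateEndo (f : HL T.W L (pw X 0) → HL T.W L (pw X 0)) : Prop where
  add : ∀ x y, f (x + y) = f x + f y
  smul : ∀ l x, f (smL l x) = smL l (f x)
  deg : ∀ i x, IsDeg i x → IsDeg i (f x)
  comm : ∃ Δ : OpenSubgroup Γ, ∀ g ∈ Δ, ∀ x, f (G.ρ 0 g x) = G.ρ 0 g (f x)

/-- The central endomorphisms are self-adjoint. -/
def CentreAdj (φ : HL T.W L X → HL T.W L X → L) : Prop :=
  ∀ f, IsTateEndo G f → (∀ h, IsTateEndo G h → ∀ x, f (h x) = h (f x)) →
    ∀ x y : HL T.W L (pw X 0), φ (f x) y = φ x (f y)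

variable (Ω) in
/-- The centre of the Lie algebra of the infinitesimal operators which kill the Tate classes is
zero. -/
def CentreZero : Prop := ∀ Z : Operators T X Ω, IsInfinitesimal Z → KillsTate G Z →
  (∀ D : Operators T X Ω, IsInfinitesimal D → KillsTate G D →
    ∀ x : HL T.W Ω (pw X 0), Z 0 (D 0 x) = D 0 (Z 0 x)) → ∀ x, Z 0 x = 0

/-- The codimension of the space of the combinations of Tate classes. -/
noncomputable def codim : ℕ :=
  finrank L (HL T.W L (pw X 0) ⧸ Submodule.span L {x : HL T.W L (pw X 0) | ∃ j, IsTate G 0 j x})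

section Data

variable [CharZero L]
  {ι : Type} [Fintype ι] [DecidableEq ι] {e : Basis ι T.W.K (T.W.H X)} {deg : ι → ℕ}
  (hdeg : ∀ i, e i ∈ T.W.gr X (deg i)) {H : HData ι}

/-- The operator given by a matrix. -/
noncomputable def opM (e : Basis ι T.W.K (T.W.H X)) (u : Matrix ι ι L)
    (x : HL T.W L (pw X 0)) : HL T.W L (pw X 0) :=
  (vB L e (u *ᵥ (vB L e).symm (show HL T.W L X from x)) : HL T.W L X)

lemma opM_vB (u : Matrix ι ι L) (v : ι → L) :
    opM e u (vB L e v : HL T.W L X) = (vB L e (u *ᵥ v) : HL T.W L X) := by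
  change (vB L e (u *ᵥ (vB L e).symm (vB L e v))) = _
  rw [LinearEquiv.symm_apply_apply]

/-- The matrices of endomorphisms. -/
lemma mt_E {f : HL T.W L (pw X 0) → HL T.W L (pw X 0)} (hf : IsTateEndo G f) :
    IsE (toRep G e hdeg) (mt (Z := X) e f) := by
  have h1 : ∀ v : ι → L, f (vB L e v : HL T.W L X) =
      (vB L e (mt (Z := X) e f *ᵥ v) : HL T.W L X) := fun v =>
    mt_spec (Z := X) e (f := f) ⟨hf.add, hf.smul⟩ v
  refine ⟨fun i k hik => ?_, ?_⟩
  · by_contra h0
    apply hik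
    have h2 := hf.deg (deg k) (vB L e (Pi.single k 1) : HL T.W L X) (isDeg_single hdeg k)
    rw [h1] at h2
    refine (isDeg_vB hdeg).1 h2 i ?_
    rw [Matrix.mulVec_single_one, Matrix.col_apply]
    exact h0
  · obtain ⟨Δ, hΔ⟩ := hf.comm
    refine ⟨Δ, fun g hg => ?_⟩
    apply Matrix.mulVec_injective
    funext v
    change (mt (Z := X) e f * (toRep G e hdeg).R g) *ᵥ v =
      ((toRep G e hdeg).R g * mt (Z := X) e f) *ᵥ v
    rw [← Matrix.mulVec_mulVec, ← Matrix.mulVec_mulVec]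
    have h2 : ∀ v : ι → L, G.ρ 0 g (vB L e v : HL T.W L X) =
        (vB L e ((toRep G e hdeg).R g *ᵥ v) : HL T.W L X) := fun v => gal_vB G e g v
    have h3 := hΔ g hg (vB L e v : HL T.W L X)
    rw [h2, h1, h1, h2] at h3
    exact vB_inj h3

/-- The operators of central matrices. -/
lemma opM_endo {u : Matrix ι ι L} (hu : IsE (toRep G e hdeg) u) : IsTateEndo G (opM e u) where
  add x y := by
    obtain ⟨v, rfl⟩ := (vB L e).surjective (show HL T.W L X from x)
    obtain ⟨w, rfl⟩ := (vB L e).surjective (show HL T.W L X from y)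
    have h1 : (vB L e v : HL T.W L X) + vB L e w = vB L e (v + w) := (map_add _ _ _).symm
    have h2 : (vB L e (u *ᵥ v) : HL T.W L X) + vB L e (u *ᵥ w) = vB L e (u *ᵥ (v + w)) := by
      rw [Matrix.mulVec_add, map_add]
    refine (congrArg (opM e u) h1).trans ((opM_vB u _).trans (h2.symm.trans ?_))
    exact congrArg₂ (fun a b : HL T.W L (pw X 0) => a + b) (opM_vB u v).symm (opM_vB u w).symm
  smul l x := by
    obtain ⟨v, rfl⟩ := (vB L e).surjective (show HL T.W L X from x)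
    have h1 : smL l (vB L e v : HL T.W L X) = vB L e (l • v) := (vB_smul e l v).symm
    have h2 : smL l (vB L e (u *ᵥ v) : HL T.W L X) = vB L e (u *ᵥ (l • v)) := by
      rw [Matrix.mulVec_smul, vB_smul]
    refine (congrArg (opM e u) h1).trans ((opM_vB u _).trans (h2.symm.trans ?_))
    exact congrArg (fun a : HL T.W L (pw X 0) => smL l a) (opM_vB u v).symm
  deg i x hx := by
    obtain ⟨v, rfl⟩ := (vB L e).surjective (show HL T.W L X from x)
    have h1 : IsDeg i (vB L e (u *ᵥ v) : HL T.W L X) := by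
      refine (isDeg_vB hdeg).2 fun m hm => ?_
      rw [Matrix.mulVec, dotProduct] at hm
      obtain ⟨n, -, hn⟩ := Finset.exists_ne_zero_of_sum_ne_zero hm
      have h2 := (isDeg_vB hdeg).1 hx n (right_ne_zero_of_mul hn)
      by_contra h3
      exact left_ne_zero_of_mul hn (hu.1 m n fun h4 => h3 (h4.trans h2))
    have h2 := opM_vB (e := e) u v
    exact h2 ▸ h1
  comm := by
    obtain ⟨Δ, hΔ⟩ := hu.2
    refine ⟨Δ, fun g hg x => ?_⟩
    obtain ⟨v, rfl⟩ := (vB L e).surjective (show HL T.W L X from x)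
    have h2 : ∀ v : ι → L, G.ρ 0 g (vB L e v : HL T.W L X) =
        (vB L e ((toRep G e hdeg).R g *ᵥ v) : HL T.W L X) := fun v => gal_vB G e g v
    refine (congrArg (opM e u) (h2 v)).trans ((opM_vB u _).trans ?_)
    refine Eq.trans ?_ ((congrArg (G.ρ 0 g) (opM_vB u v)).trans (h2 _)).symm
    rw [Matrix.mulVec_mulVec, Matrix.mulVec_mulVec, hΔ g hg]

/-- The operators of central matrices are central. -/
lemma opM_central {u : Matrix ι ι L} (hu : IsCE (toRep G e hdeg) u)
    {f : HL T.W L (pw X 0) → HL T.W L (pw X 0)} (hf : IsTateEndo G f) (x : HL T.W L (pw X 0)) :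
    opM e u (f x) = f (opM e u x) := by
  obtain ⟨v, rfl⟩ := (vB L e).surjective (show HL T.W L X from x)
  have h1 : ∀ v : ι → L, f (vB L e v : HL T.W L X) =
      (vB L e (mt (Z := X) e f *ᵥ v) : HL T.W L X) := fun v =>
    mt_spec (Z := X) e (f := f) ⟨hf.add, hf.smul⟩ v
  refine (congrArg (opM e u) (h1 v)).trans ((opM_vB u _).trans ?_)
  refine Eq.trans ?_ ((congrArg f (opM_vB u v)).trans (h1 _)).symm
  rw [Matrix.mulVec_mulVec, Matrix.mulVec_mulVec, hu.2 _ (mt_E G hdeg hf)]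

lemma adj_form {φ : HL T.W L X → HL T.W L X → L}
    (h : CentreAdj G φ) {u : Matrix ι ι L} (hu : IsCE (toRep G e hdeg) u) (v w : ι → L) :
    φ (vB L e (u *ᵥ v)) (vB L e w) = φ (vB L e v) (vB L e (u *ᵥ w)) := by
  have h2 := h (opM e u) (opM_endo G hdeg hu.1) (fun f hf x => opM_central G hdeg hu hf x)
    (vB L e v : HL T.W L X) (vB L e w : HL T.W L X)
  have h3 : (show HL T.W L X from opM e u (vB L e v : HL T.W L X)) = vB L e (u *ᵥ v) :=
    opM_vB u v
  have h4 : (show HL T.W L X from opM e u (vB L e w : HL T.W L X)) = vB L e (u *ᵥ w) :=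
    opM_vB u w
  rw [← h3, ← h4]
  exact h2

lemma sum_mul_single (v : ι → L) (b : ι) (F : ι → ι → L) :
    ∑ i, ∑ m, v i * (Pi.single b 1 : ι → L) m * F i m = ∑ i, v i * F i b := by
  refine Finset.sum_congr rfl fun i _ => ?_
  rw [Finset.sum_eq_single b]
  · rw [Pi.single_eq_same, mul_one]
  · intro m _ hm
    rw [Pi.single_eq_of_ne hm, mul_zero, zero_mul]
  · intro h; exact absurd (Finset.mem_univ _) h

lemma sum_single_mul (v : ι → L) (a : ι) (F : ι → ι → L) :
    ∑ i, ∑ m, (Pi.single a 1 : ι → L) i * v m * F i m = ∑ m, v m * F a m := by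
  rw [Finset.sum_eq_single a]
  · refine Finset.sum_congr rfl fun m _ => ?_
    rw [Pi.single_eq_same, one_mul]
  · intro i _ hi
    refine Finset.sum_eq_zero fun m _ => ?_
    rw [Pi.single_eq_of_ne hi, zero_mul, zero_mul]
  · intro h; exact absurd (Finset.mem_univ _) h

/-- Self-adjoint centres in coordinates. -/
lemma adj_coord {ψ : Pool.Agent.N996.FP.RForm T.W X} {r : ℂ} (hQ : cQ H.Qr = r • (fM e ψ)ᵀ)
    (h : CentreAdj G (formL L ψ)) {j : L →+* ℂ} {u : Matrix ι ι L}
    (hu : IsCE (toRep G e hdeg) u) : u.map j * cQ H.Qir = cQ H.Qir * (u.map j)ᵀ := by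
  obtain ⟨F, hF⟩ := exists_Fq e ψ
  suffices key : cQ F * u.map j = (u.map j)ᵀ * cQ F by
    rw [← fM_eq hF] at key
    exact adj_of_fM (T := toH T) (X := X) (e := e) (ψ := ψ) hQ key
  ext a b
  have h3 := adj_form G hdeg h hu (Pi.single a 1) (Pi.single b 1)
  rw [formL_vB hF, formL_vB hF, sum_mul_single _ b fun i m => ((F i m : ℚ) : L),
    sum_single_mul _ a fun i m => ((F i m : ℚ) : L)] at h3
  have h5 := congrArg j h3
  rw [Matrix.mulVec_single_one, Matrix.mulVec_single_one] at h5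
  simp only [map_sum, map_mul, map_ratCast, Matrix.col_apply] at h5
  rw [Matrix.mul_apply, Matrix.mul_apply]
  simp only [cQ, Matrix.map_apply, Matrix.transpose_apply]
  rw [h5]
  exact Finset.sum_congr rfl fun m _ => mul_comm _ _

/-- Zero centres in coordinates. -/
lemma cen_coord (θ : Ω ≃+* ℂ) (h : CentreZero Ω G) {y : Matrix ι ι ℂ}
    (hy : y ∈ LT (TT (jj L θ) (toRep G e hdeg)))
    (hc : ∀ z ∈ LT (TT (jj L θ) (toRep G e hdeg)), y * z = z * y) : y = 0 := by
  obtain ⟨y', hy'⟩ : ∃ y' : Matrix ι ι Ω, y' = y.map θ.symm := ⟨_, rfl⟩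
  have hyy : y'.map θ = y := by
    rw [hy']
    ext i j
    exact θ.apply_symm_apply _
  have h1 := h (opOf e y') (opOf_inf e y') ((kt_iff G hdeg θ y').2 (by rw [hyy]; exact hy)) (by
    intro E hE hE2 x
    obtain ⟨z, hz⟩ : ∃ z, z = mt (Z := X) e (E 0) := ⟨_, rfl⟩
    have h2 : E = opOf e z := by rw [hz]; exact inf_eq hE
    have h3 := (kt_iff G hdeg θ z).1 (by rw [← h2]; exact hE2)
    have h4 : y' * z = z * y' := by
      have h5 := hc _ h3
      rw [← hyy, ← map_mul_th, ← map_mul_th] at h5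
      ext i j
      exact θ.injective (congrFun (congrFun h5 i) j)
    obtain ⟨v, rfl⟩ := (vB Ω e).surjective (show HL T.W Ω X from x)
    have h5 : opOf e z 0 (vB Ω e v : HL T.W Ω X) = (vB Ω e (z *ᵥ v) : HL T.W Ω X) :=
      opOf_zero e z v
    have h6 : opOf e y' 0 (vB Ω e v : HL T.W Ω X) = (vB Ω e (y' *ᵥ v) : HL T.W Ω X) :=
      opOf_zero e y' v
    have h7 : opOf e y' 0 (vB Ω e (z *ᵥ v) : HL T.W Ω X) =
      (vB Ω e (y' *ᵥ (z *ᵥ v)) : HL T.W Ω X) := opOf_zero e y' _
    have h8 : opOf e z 0 (vB Ω e (y' *ᵥ v) : HL T.W Ω X) =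
      (vB Ω e (z *ᵥ (y' *ᵥ v)) : HL T.W Ω X) := opOf_zero e z _
    rw [h2]
    refine ((congrArg (opOf e y' 0) h5).trans h7).trans
      (Eq.trans ?_ ((congrArg (opOf e z 0) h6).trans h8).symm)
    rw [Matrix.mulVec_mulVec, Matrix.mulVec_mulVec, h4])
  have h2 : y' = 0 := by
    apply Matrix.mulVec_injective
    funext v
    change y' *ᵥ v = 0 *ᵥ v
    rw [Matrix.zero_mulVec]
    have h3 : opOf e y' 0 (vB Ω e v : HL T.W Ω X) = (vB Ω e (y' *ᵥ v) : HL T.W Ω X) :=
      opOf_zero e y' v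
    have h4 : (vB Ω e (y' *ᵥ v) : HL T.W Ω X) = vB Ω e 0 := by
      rw [map_zero]
      exact h3.symm.trans (h1 _)
    exact vB_inj h4
  rw [← hyy, h2]
  ext i j
  exact map_zero θ

end Data

end Pool.Agent.L0h10.RT
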