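import Pool.Agent.N996.FP.Defs

/-!
# The extension of a rational bilinear form to other coefficients
-/

open CategoryTheory AlgebraicGeometry TensorProduct

universe u

namespace Pool.Agent.L0h10.RT

open Pool.Agent.H914 Pool.Agent.H914.VarClass Pool.Agent.H914.VarClass.Obj
  Pool.Agent.H914.WeilCohomology
open Pool.Agent.Y121.AHS Pool.Agent.N996.FP
open Pool.Agent.N996.BP (Bil)

/-- The extension of a bilinear form to coefficients in `L`, `(l ⊗ a, m ⊗ b) ↦ l m ψ(a, b)`. -/
noncomputable def extBilL {K A : Type} (L : Type) [Field K] [Field L] [Algebra K L] [Ring A]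
    [Algebra K A] (ψ : Bil K A) (x y : Ext K L A) : L :=
  (LinearMap.BilinForm.baseChange L ψ : LinearMap.BilinForm L (L ⊗[K] A))
    (show L ⊗[K] A from x) (show L ⊗[K] A from y)

variable {k : Type u} [Field k] {𝒱 : VarClass k} {ops : CycleOps 𝒱}

/-- The extension of a rational bilinear form on `H(X)` to coefficients in `L`. -/
noncomputable def formL {W : WeilCohomology.{u, 0} ops} {X : 𝒱.Obj} (L : Type) [Field L]
    [Algebra W.K L] (ψ : RForm W X) (x y : HL W L X) : L := extBilL L ψ x y

end Pool.Agent.L0h10.RT
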