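import Pool.Agent.L0h10.RT.Pred
import Pool.Agent.L0h10.RQ.Crd

/-!
# Tate classes and classes with a given property in coordinates
-/

set_option linter.unusedSectionVars false

open CategoryTheory AlgebraicGeometry TensorProduct Matrix

universe u v

namespace Pool.Agent.L0h10.RT

open Module
open Pool.Agent.H914 Pool.Agent.H914.VarClass Pool.Agent.H914.VarClass.Obj
  Pool.Agent.H914.WeilCohomology
open Pool.Agent.Y121.AHS
open Pool.Agent.Y133.Half (pw pfst psnd wb wb_zero ClassPred)
open Pool.Agent.Y121.AH (hodgePred)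
open Pool.Agent.N996.BP Pool.Agent.N996.FP Pool.Agent.N996.BP.Geo
open Pool.Agent.L0h10.TS (GaloisAction IsTate cross_one isDeg_mapL mapL_em mapL_smL mapL_add
  mapL_zero smL_one emL_add emL_smul emL_zero exists_cl ve emL_clw cL toRep isT_iff isDeg_ve
  wb_mem hp desc_span)
open Pool.Agent.L0h10.RQ

variable {k : Type u} [Field k] {𝒱 : VarClass k} {ops : CycleOps 𝒱} {T : HodgeTheory ops}
  {X : 𝒱.Obj} {L : Type} [Field L] [CharZero L] [Algebra T.W.K L] {Γ : Type v} [Group Γ]
  [TopologicalSpace Γ] {G : GaloisAction T X Γ L} {Q : ClassPred T.W}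
  {ι : Type} [Fintype ι] [DecidableEq ι] {e : Basis ι T.W.K (T.W.H X)} {deg : ι → ℕ}
  (hdeg : ∀ i, e i ∈ T.W.gr X (deg i)) {j : L →+* ℂ}

variable (Q e) in
/-- The arrays of the classes with the property `Q`. -/
noncomputable def AA (n : ℕ) : Submodule ℚ ((Fin (n + 1) → ι) → ℚ) := arrc e (Q.sys.csys X) n

lemma mem_AA {n : ℕ} {a : (Fin (n + 1) → ι) → ℚ} : a ∈ AA Q e n ↔ clw e n a ∈ Q.sp (pw X n) :=
  Iff.rfl

/-- The coordinates of a class with coefficients in `L`, as complex numbers. -/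
noncomputable def cj (e : Basis ι T.W.K (T.W.H X)) (j : L →+* ℂ) (n : ℕ)
    (x : HL T.W L (pw X n)) : (Fin (n + 1) → ι) → ℂ := fun w => j ((ve L e n).symm x w)

lemma cj_ve (n : ℕ) (b : (Fin (n + 1) → ι) → L) : cj e j n (ve L e n b) = fun w => j (b w) := by
  funext w
  rw [cj, LinearEquiv.symm_apply_apply]

lemma cj_zero (n : ℕ) : cj e j n 0 = 0 := by
  funext w
  rw [cj, map_zero]
  exact map_zero j

lemma cj_add (n : ℕ) (x y : HL T.W L (pw X n)) : cj e j n (x + y) = cj e j n x + cj e j n y := by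
  funext w
  rw [cj, map_add]
  exact map_add j _ _

lemma cj_smul (n : ℕ) (c : L) (x : HL T.W L (pw X n)) : cj e j n (c • x) = j c • cj e j n x := by
  funext w
  rw [cj, map_smul]
  exact map_mul j _ _

lemma j_cL {κ : Type} (a : (κ → ι) → ℚ) : (fun w => j (cL L a w)) = ca a := by
  funext w
  exact map_ratCast j _

lemma cj_clw (n : ℕ) (a : (Fin (n + 1) → ι) → ℚ) : cj e j n (emL T.W L (clw e n a)) = ca a := by
  rw [emL_clw, cj_ve, j_cL]

lemma exists_clw (n : ℕ) (c : T.W.H (pw X n)) : ∃ a : (Fin (n + 1) → ι) → ℚ, clw e n a = c :=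
  cls_surj (T := toH T) e n c

/-- Classes with the property `Q` give Tate arrays. -/
lemma AA_TT (hQT : QTate G Q) {n : ℕ} {a : (Fin (n + 1) → ι) → ℚ} (ha : a ∈ AA Q e n) :
    ca a ∈ TT j (toRep G e hdeg) n := by
  have key : ∀ c ∈ Q.sp (pw X n), cj e j n (emL T.W L c) ∈ TT j (toRep G e hdeg) n := by
    intro c hc
    refine ClassPred.sp_ind (Q := Q) (q := fun c => cj e j n (emL T.W L c) ∈
      TT j (toRep G e hdeg) n) ?_ ?_ ?_ hc
    · intro p c hc
      refine TT_of ((isT_iff G e hdeg).2 ⟨p, ?_⟩)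
      rw [LinearEquiv.apply_symm_apply]
      exact hQT n p c hc
    · rw [emL_zero, cj_zero]
      exact Submodule.zero_mem _
    · intro a b ha hb
      rw [emL_add, cj_add]
      exact Submodule.add_mem _ ha hb
  have h1 := key _ (mem_AA.1 ha)
  rwa [cj_clw] at h1

/-- If the Tate classes are combinations of classes with the property `Q`. -/
lemma TT_AA {n : ℕ} (hT : TateQ G Q n) {c : (Fin (n + 1) → ι) → ℂ}
    (hc : c ∈ TT j (toRep G e hdeg) n) :
    c ∈ Submodule.span ℂ (ca '' (AA Q e n : Set ((Fin (n + 1) → ι) → ℚ))) := by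
  induction hc using Submodule.span_induction with
  | mem x hx =>
    obtain ⟨b, hb, rfl⟩ := hx
    obtain ⟨p, hp⟩ := (isT_iff G e hdeg).1 hb
    have h1 := hT p _ hp
    have key : ∀ x ∈ Submodule.span L {y : HL T.W L (pw X n) | ∃ c, Q.P (pw X n) p c ∧
        emL T.W L c = y}, cj e j n x ∈
        Submodule.span ℂ (ca '' (AA Q e n : Set ((Fin (n + 1) → ι) → ℚ))) := by
      intro x hx
      induction hx using Submodule.span_induction with
      | mem x hx =>
        obtain ⟨c, hc, rfl⟩ := hx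
        obtain ⟨a, rfl⟩ := exists_clw (e := e) n c
        rw [cj_clw]
        exact Submodule.subset_span ⟨a, mem_AA.2 (ClassPred.sp_of hc), rfl⟩
      | zero => rw [cj_zero]; exact Submodule.zero_mem _
      | add x y _ _ hx hy => rw [cj_add]; exact Submodule.add_mem _ hx hy
      | smul c x _ hx => rw [cj_smul]; exact Submodule.smul_mem _ _ hx
    have h2 := key _ h1
    rwa [cj_ve] at h2
  | zero => exact Submodule.zero_mem _
  | add x y _ _ hx hy => exact Submodule.add_mem _ hx hy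
  | smul r x _ hx => exact Submodule.smul_mem _ r hx

/-- Descent. -/
lemma AA_of {n : ℕ} {a : (Fin (n + 1) → ι) → ℚ}
    (h : ca a ∈ Submodule.span ℂ (ca '' (AA Q e n : Set ((Fin (n + 1) → ι) → ℚ)))) :
    a ∈ AA Q e n := by
  have h1 := desc_span (algebraMap ℚ ℂ) (B := (AA Q e n : Set ((Fin (n + 1) → ι) → ℚ)))
    (u := a) (by
    have h2 : (fun i => algebraMap ℚ ℂ (a i)) = ca a := by
      funext i
      rw [eq_ratCast]
      rfl
    have h3 : (fun b : (Fin (n + 1) → ι) → ℚ => fun i => algebraMap ℚ ℂ (b i)) = ca := by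
      funext b i
      rw [eq_ratCast]
      rfl
    rw [h2, h3]
    exact h)
  rwa [Submodule.span_eq] at h1

include hdeg in
/-- The homogeneous parts. -/
lemma hp_Q {n : ℕ} {a : (Fin (n + 1) → ι) → ℚ} (ha : a ∈ AA Q e n) (p : ℕ) :
    Q.P (pw X n) p (clw e n (hp deg p a)) := by
  have h1 := ClassPred.sp_proj (mem_AA.1 ha) p
  have h2 : H914.proj (T.W.isInternal (pw X n)) (2 * p) (clw e n a) = clw e n (hp deg p a) := by
    rw [clw, clw, map_sum]
    refine Finset.sum_congr rfl fun w _ => ?_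
    rw [map_smul, hp]
    by_cases hw : ∑ i, deg (w i) = 2 * p
    · rw [if_pos hw, Pool.Agent.H914.proj_same _ (hw ▸ wb_mem hdeg n w)]
    · rw [if_neg hw, Pool.Agent.H914.proj_ne _ (wb_mem hdeg n w) hw, smul_zero, Rat.cast_zero,
        zero_smul]
  rw [← h2]
  exact h1

include hdeg in
lemma hp_spanQ {n : ℕ} {z : (Fin (n + 1) → ι) → L}
    (hz : z ∈ Submodule.span L (cL L '' (AA Q e n : Set _))) (p : ℕ) :
    ve L e n (hp deg p z) ∈
      Submodule.span L {y : HL T.W L (pw X n) | ∃ c, Q.P (pw X n) p c ∧ emL T.W L c = y} := by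
  induction hz using Submodule.span_induction with
  | mem z hz =>
    obtain ⟨a, ha, rfl⟩ := hz
    refine Submodule.subset_span ⟨_, hp_Q hdeg ha p, ?_⟩
    rw [emL_clw]
    congr 1
    funext w
    rw [cL, hp, hp]
    by_cases hw : ∑ i, deg (w i) = 2 * p
    · rw [if_pos hw, if_pos hw]; rfl
    · rw [if_neg hw, if_neg hw, Rat.cast_zero]
  | zero =>
    have h1 : hp deg p (0 : (Fin (n + 1) → ι) → L) = 0 := by
      funext w
      exact ite_self _
    rw [h1, map_zero]
    exact Submodule.zero_mem _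
  | add a b _ _ ha hb =>
    have h1 : hp deg p (a + b) = hp deg p a + hp deg p b := by
      funext w
      rw [Pi.add_apply]
      by_cases hw : ∑ i, deg (w i) = 2 * p
      · simp only [hp, if_pos hw, Pi.add_apply]
      · simp only [hp, if_neg hw, add_zero]
    rw [h1, map_add]
    exact Submodule.add_mem _ ha hb
  | smul c a _ ha =>
    have h1 : hp deg p (c • a) = c • hp deg p a := by
      funext w
      rw [Pi.smul_apply]
      by_cases hw : ∑ i, deg (w i) = 2 * p
      · simp only [hp, if_pos hw, Pi.smul_apply]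
      · simp only [hp, if_neg hw, smul_zero]
    rw [h1, map_smul]
    exact Submodule.smul_mem _ _ ha

/-- **The conclusion.** -/
theorem tateQ_of {n : ℕ} (h : ∀ c ∈ TT j (toRep G e hdeg) n, c ∈ AC (AA Q e) (Fin (n + 1))) :
    TateQ G Q n := by
  intro p x hx
  obtain ⟨b, rfl⟩ := (ve L e n).surjective x
  have hb : (toRep G e hdeg).IsT n b := (isT_iff G e hdeg).2 ⟨p, hx⟩
  have h1 := h _ (TT_of (j := j) hb)
  have h2 : (fun w => j (b w)) ∈ Submodule.span ℂ
      ((fun d : (Fin (n + 1) → ι) → L => fun i => j (d i)) '' (cL L '' (AA Q e n : Set _))) := by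
    refine Submodule.span_mono ?_ h1
    rintro _ ⟨a, ha, rfl⟩
    refine ⟨_, ⟨a, ?_, rfl⟩, j_cL a⟩
    exact ha n (Equiv.refl _)
  have h3 := hp_spanQ hdeg (desc_span j h2) p
  have h4 : hp deg p b = b := by
    funext w
    rw [hp]
    by_cases hw : ∑ i, deg (w i) = 2 * p
    · rw [if_pos hw]
    · rw [if_neg hw]
      by_contra h8
      exact hw ((isDeg_ve (W := T.W) (e := e) hdeg).1 hx.1 w (Ne.symm h8))
  rwa [h4] at h3

end Pool.Agent.L0h10.RT
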