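import Pool.Agent.L0h10.RT.Geo2

/-!
# The class of the form
-/

set_option linter.unusedSectionVars false

open CategoryTheory AlgebraicGeometry TensorProduct Matrix

universe u v

namespace Pool.Agent.L0h10.RT

open Module
open Pool.Agent.H914 Pool.Agent.H914.VarClass Pool.Agent.H914.VarClass.Obj
  Pool.Agent.H914.WeilCohomology
open Pool.Agent.Y121.AHS
open Pool.Agent.Y133.Half (pw pfst psnd wb wb_zero wb_succ ClassPred xp PH neg_pow_congr xp_mul
  tr_xp xp_smul_left)
open Pool.Agent.Y121.AH (hodgePred)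
open Pool.Agent.N996.BP Pool.Agent.N996.FP Pool.Agent.N996.BP.Geo
open Pool.Agent.L0h10.TS (GaloisAction IsTate cross_one isDeg_mapL mapL_em mapL_smL mapL_add
  mapL_zero smL_one emL_add emL_smul emL_zero exists_cl ve emL_clw cL toRep isT_iff isDeg_ve
  wb_mem hp desc_span ar2 ar2_inj ar2_surj kp_ar2 sum_fin2 GRep isTp_iff)
open Pool.Agent.L0h10.RQ

variable {k : Type u} [Field k] {𝒱 : VarClass k} {ops : CycleOps 𝒱} {T : HodgeTheory ops}
  {X : 𝒱.Obj} {ι : Type} [Fintype ι] [DecidableEq ι] {e : Basis ι T.W.K (T.W.H X)} {deg : ι → ℕ}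
  (hdeg : ∀ i, e i ∈ T.W.gr X (deg i)) {K : Matrix ι ι ℚ}
  (hK : ∀ i m, ((K i m : ℚ) : T.W.K) = T.W.tr X (e i * e m))

variable (T) in
lemma exists_K (e : Basis ι T.W.K (T.W.H X)) : ∃ K : Matrix ι ι ℚ,
    ∀ i m, ((K i m : ℚ) : T.W.K) = T.W.tr X (e i * e m) := by
  choose q hq using fun i m => T.rat (T.W.tr X (e i * e m))
  exact ⟨Matrix.of q, fun i m => hq i m⟩

include hdeg hK in
lemma K_par {i m : ι} (h : K i m ≠ 0) : deg i % 2 = deg m % 2 := by
  by_contra h1
  apply h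
  have h2 : T.W.tr X (e i * e m) = 0 :=
    T.W.tr_eq_zero (T.W.mul_mem (hdeg i) (hdeg m)) (by omega)
  rw [← hK] at h2
  exact_mod_cast h2

lemma kb_smul (b : T.W.H X) (r : T.W.K) (c : T.W.H (X.prod X)) : kb b (r • c) = r • kb b c := by
  rw [kb, kb, mul_smul_comm, map_smul]

lemma kb_sum (b : T.W.H X) {α : Type*} (s : Finset α) (f : α → T.W.H (X.prod X)) :
    kb b (∑ i ∈ s, f i) = ∑ i ∈ s, kb b (f i) := by
  rw [kb, Finset.mul_sum, map_sum]
  rfl

lemma neg_pow_mul_congr {F : Type*} [Field F] {a b c : ℕ} (h : a % 2 = b % 2) :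
    (-1 : F) ^ (a * c) = (-1 : F) ^ (b * c) :=
  neg_pow_congr (by rw [Nat.mul_mod, h, ← Nat.mul_mod])

include hdeg hK in
/-- The equation for the class of the diagonal. -/
lemma dl_eq {a : (Fin (1 + 1) → ι) → ℚ} (ha : clw e 1 a = dl T X) :
    sg deg (mq a) * Kᵀ = 1 := by
  ext m i
  have h1 : kb (e i) (clw e 1 a) = e i := by rw [ha]; exact kb_diag (e i)
  have h2 : kb (e i) (clw e 1 a) = ∑ m, ∑ n,
      (((a ![m, n] : ℚ) : T.W.K) * ((-1) ^ (deg i * deg m) * ((K i n : ℚ) : T.W.K))) • e m := by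
    have h3 : kb (e i) (clw e 1 a) = kb (e i)
        (∑ i, ∑ m, ((a ![i, m] : ℚ) : T.W.K) • xp T.W (e i) (e m)) :=
      congrArg (kb (e i)) (clw_one a)
    rw [h3, kb_sum]
    refine Finset.sum_congr rfl fun m _ => ?_
    rw [kb_sum]
    refine Finset.sum_congr rfl fun n _ => ?_
    rw [kb_smul, kb_xp (PH.of (hdeg i)) (PH.of (hdeg m)), smul_smul, hK]
  have h3 := congrArg (fun x => e.repr x m) (h2.symm.trans h1)
  beta_reduce at h3
  rw [Basis.repr_self, Finsupp.single_apply, map_sum, Finset.sum_apply',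
    Finset.sum_eq_single m] at h3
  · rw [map_sum, Finset.sum_apply'] at h3
    simp only [map_smul, Basis.repr_self, Finsupp.smul_apply, Finsupp.single_eq_same,
      smul_eq_mul, mul_one] at h3
    have h4 : (((sg deg (mq a) * Kᵀ) m i : ℚ) : T.W.K) =
        ∑ n, ((a ![m, n] : ℚ) : T.W.K) * ((-1) ^ (deg i * deg m) * ((K i n : ℚ) : T.W.K)) := by
      rw [Matrix.mul_apply, Rat.cast_sum]
      refine Finset.sum_congr rfl fun n _ => ?_
      rw [sg_apply, Matrix.transpose_apply]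
      by_cases h0 : K i n = 0
      · rw [h0]; simp
      · have h5 : (-1 : T.W.K) ^ (deg m * deg n) = (-1) ^ (deg i * deg m) := by
          rw [mul_comm (deg m), neg_pow_mul_congr (K_par hdeg hK h0).symm]
        push_cast
        rw [h5]
        change _ * ((a ![m, n] : ℚ) : T.W.K) * _ = _
        ring
    rw [h3] at h4
    rw [Matrix.one_apply]
    by_cases h6 : i = m
    · rw [if_pos h6.symm]
      rw [if_pos h6] at h4
      exact_mod_cast h4
    · rw [if_neg (Ne.symm h6)]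
      rw [if_neg h6] at h4
      exact_mod_cast h4
  · intro b _ hb
    rw [map_sum, Finset.sum_apply']
    refine Finset.sum_eq_zero fun n _ => ?_
    rw [map_smul, Basis.repr_self, Finsupp.smul_apply, Finsupp.single_apply, if_neg hb, smul_zero]
  · intro h; exact absurd (Finset.mem_univ _) h

include hdeg hK in
/-- The form given by a class. -/
lemma q_tr (b : (Fin (1 + 1) → ι) → ℚ) (i l : ι) :
    T.W.tr (X.prod X) (xp T.W (e i) (e l) * (show T.W.H (X.prod X) from clw e 1 b)) =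
      (((K * sg deg (mq b) * Kᵀ) i l : ℚ) : T.W.K) := by
  have h3 : (show T.W.H (X.prod X) from clw e 1 b) =
      ∑ i, ∑ m, ((b ![i, m] : ℚ) : T.W.K) • xp T.W (e i) (e m) := clw_one b
  have h1 : T.W.tr (X.prod X) (xp T.W (e i) (e l) * (show T.W.H (X.prod X) from clw e 1 b)) =
      ∑ m, ∑ n, ((b ![m, n] : ℚ) : T.W.K) * ((-1) ^ (deg l * deg m) *
        (((K i m : ℚ) : T.W.K) * ((K l n : ℚ) : T.W.K))) := by
    rw [h3, Finset.mul_sum, map_sum]
    refine Finset.sum_congr rfl fun m _ => ?_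
    rw [Finset.mul_sum, map_sum]
    refine Finset.sum_congr rfl fun n _ => ?_
    rw [mul_smul_comm, map_smul, xp_mul _ _ _ _ (PH.of (hdeg l)) (PH.of (hdeg m)), map_smul,
      tr_xp, smul_eq_mul, smul_eq_mul, hK, hK]
  have h4 : (((K * sg deg (mq b) * Kᵀ) i l : ℚ) : T.W.K) =
      ∑ m, ∑ n, ((b ![m, n] : ℚ) : T.W.K) * ((-1) ^ (deg l * deg m) *
        (((K i m : ℚ) : T.W.K) * ((K l n : ℚ) : T.W.K))) := by
    rw [Matrix.mul_apply, Rat.cast_sum]
    simp only [Matrix.mul_apply, Matrix.transpose_apply, Finset.sum_mul, Rat.cast_sum]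
    rw [Finset.sum_comm]
    refine Finset.sum_congr rfl fun m _ => Finset.sum_congr rfl fun n _ => ?_
    rw [sg_apply]
    by_cases h0 : K l n = 0
    · rw [h0]; simp
    · have h5 : (-1 : T.W.K) ^ (deg m * deg n) = (-1) ^ (deg l * deg m) := by
        rw [mul_comm (deg m), neg_pow_mul_congr (K_par hdeg hK h0).symm]
      push_cast
      rw [h5]
      change _ * (_ * ((b ![m, n] : ℚ) : T.W.K)) * _ = _
      ring
  exact h1.trans h4.symm

end Pool.Agent.L0h10.RT
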