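import Pool.Agent.L0h10.RT.Geo3

/-!
# The classes of the parity operator and of the form have the property
-/

set_option linter.unusedSectionVars false

open CategoryTheory AlgebraicGeometry TensorProduct Matrix

universe u v

namespace Pool.Agent.L0h10.RT

open Module
open Pool.Agent.H914 Pool.Agent.H914.VarClass Pool.Agent.H914.VarClass.Obj
  Pool.Agent.H914.WeilCohomology
open Pool.Agent.Y121.AHS
open Pool.Agent.Y133.Half (pw pfst psnd wb wb_zero wb_succ ClassPred xp PH neg_pow_congr xp_mul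
  tr_xp xp_smul_left)
open Pool.Agent.Y121.AH (hodgePred)
open Pool.Agent.N996.BP Pool.Agent.N996.FP Pool.Agent.N996.BP.Geo
open Pool.Agent.L0h10.TS (GaloisAction IsTate cross_one isDeg_mapL mapL_em mapL_smL mapL_add
  mapL_zero smL_one emL_add emL_smul emL_zero exists_cl ve emL_clw cL toRep isT_iff isDeg_ve
  wb_mem hp desc_span ar2 ar2_inj ar2_surj kp_ar2 sum_fin2 GRep isTp_iff)
open Pool.Agent.L0h10.RQ

variable {k : Type u} [Field k] {𝒱 : VarClass k} {ops : CycleOps 𝒱} {T : HodgeTheory ops}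
  {X : 𝒱.Obj} {L : Type} [Field L] [CharZero L] [Algebra T.W.K L] {Γ : Type v} [Group Γ]
  [TopologicalSpace Γ] {G : GaloisAction T X Γ L} {Q : ClassPred T.W}
  {ι : Type} [Fintype ι] [DecidableEq ι] {e : Basis ι T.W.K (T.W.H X)} {deg : ι → ℕ}
  (hdeg : ∀ i, e i ∈ T.W.gr X (deg i)) {j : L →+* ℂ} {H : HData ι}

lemma dl_P : Q.P (pw X 1) X.dim (dl T X) := by
  have h1 : (X.prod X).dim = X.dim + X.dim := rfl
  exact Q.push (diag X) (j := 0) (l := X.dim) (by rw [h1]; omega) (one_P X)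

lemma cQ_sg (M : Matrix ι ι ℚ) : cQ (sg deg M) = sg deg (cQ M) := by
  ext i m
  rw [cQ, Matrix.map_apply, sg_apply, sg_apply, cQ, Matrix.map_apply]
  push_cast
  rfl

/-- The coordinates of the class of the diagonal. -/
lemma exists_dl (hQT : QTate G Q) : ∃ a : (Fin (1 + 1) → ι) → ℚ, clw e 1 a = dl T X ∧
    (∀ i m, mq a i m ≠ 0 → Even (deg i + deg m)) ∧
    ∃ Δ : OpenSubgroup Γ, FixM j (toRep G e hdeg) Δ (cQ (mq a)) := by
  obtain ⟨a, ha⟩ := exists_clw (e := e) 1 (dl T X)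
  have h1 := hQT 1 X.dim _ (dl_P (Q := Q))
  rw [← ha, emL_clw] at h1
  have h2 := (isTp_iff G e hdeg).2 h1
  refine ⟨a, ha, fun i m h => ?_, fixM_isTp (j := j) h2 ?_⟩
  · have h3 := h2.1 ![i, m] (by
      change ((a ![i, m] : ℚ) : L) ≠ 0
      exact_mod_cast h)
    rw [Fin.sum_univ_two] at h3
    change deg i + deg m = _ at h3
    exact ⟨X.dim, by omega⟩
  · rw [j_cL, ca_mq]

lemma even_sg {F : Type} [Ring F] {M : Matrix ι ι F} (h : ∀ i m, M i m ≠ 0 → Even (deg i + deg m))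
    (i m : ι) (hm : sg deg M i m ≠ 0) : Even (deg i + deg m) := by
  refine h i m fun h0 => hm ?_
  rw [sg_apply, h0, mul_zero]

/-- Fixed rational matrices. -/
lemma fix_Q (hT : TateQ G Q 1) {a : (Fin (1 + 1) → ι) → ℚ} {Δ : OpenSubgroup Γ}
    (h1 : FixM j (toRep G e hdeg) Δ (cQ (mq a)))
    (h2 : ∀ i m, mq a i m ≠ 0 → Even (deg i + deg m)) : clw e 1 a ∈ Q.sp (pw X 1) := by
  refine mem_AA.1 (AA_of (TT_AA hdeg hT (j := j) ?_))
  rw [← ca_mq]
  refine h1.TT fun i m h => h2 i m fun h0 => h ?_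
  rw [cQ, Matrix.map_apply, h0, Rat.cast_zero]

include hdeg in
/-- The class of the parity operator has the property. -/
lemma dp_Q (hQT : QTate G Q) (hT : TateQ G Q 1) (j : L →+* ℂ) : dp T.W X ∈ Q.sp (pw X 1) := by
  obtain ⟨a, ha, h1, Δ, h2⟩ := exists_dl (j := j) hdeg hQT
  rw [← dp_arr hdeg ha]
  have h3 : mq (ar2 (Matrix.diagonal (fun i => (-1 : ℚ) ^ deg i) * mq a)) =
      Matrix.diagonal (fun i => (-1 : ℚ) ^ deg i) * mq a := rfl
  refine fix_Q hdeg hT (j := j) (Δ := Δ) ?_ ?_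
  · have h4 := h2.diag fun n => (-1) ^ n
    have h5 : cQ (mq (ar2 (Matrix.diagonal (fun i => (-1 : ℚ) ^ deg i) * mq a))) =
        Matrix.diagonal (fun i => (-1 : ℂ) ^ deg i) * cQ (mq a) := by
      rw [h3]
      ext i m
      rw [cQ, Matrix.map_apply, Matrix.diagonal_mul, Matrix.diagonal_mul, cQ, Matrix.map_apply]
      push_cast
      rfl
    rw [h5]
    exact h4
  · intro i m h
    rw [h3, Matrix.diagonal_mul] at h
    exact h1 i m (right_ne_zero_of_mul h)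

/-- The class of the form has the property. -/
lemma exists_qQ (hQT : QTate G Q) (hT : TateQ G Q 1) {Δ : OpenSubgroup Γ}
    (hInv : InvQ j (toRep G e hdeg) H Δ) (hd : Hom2 deg H) :
    ∃ q : T.W.H (X.prod X), (show T.W.H (pw X 1) from q) ∈ Q.sp (pw X 1) ∧
      ∀ i m, T.W.tr (X.prod X) (xp T.W (e i) (e m) * q) = ((H.Qr i m : ℚ) : T.W.K) := by
  obtain ⟨K, hK⟩ := exists_K T e
  obtain ⟨a, ha, h1, Δ', h2⟩ := exists_dl (j := j) hdeg hQT
  have h3 := dl_eq hdeg hK ha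
  obtain ⟨M, hM⟩ : ∃ M, M = sg deg (mq a) := ⟨_, rfl⟩
  rw [← hM] at h3
  let b : (Fin (1 + 1) → ι) → ℚ := ar2 (sg deg (Mᵀ * H.Qr * M))
  have hb : mq b = sg deg (Mᵀ * H.Qr * M) := rfl
  refine ⟨clw e 1 b, fix_Q hdeg hT (j := j) (Δ := Δ ⊓ Δ') ?_ ?_, fun i m => ?_⟩
  · have h5 : FixM j (toRep G e hdeg) (Δ ⊓ Δ') (cQ M) := by
      rw [hM, cQ_sg]
      exact (h2.sg).mono fun g hg => (OpenSubgroup.mem_inf.1 hg).2
    have h6 : InvQ j (toRep G e hdeg) H (Δ ⊓ Δ') := fun g hg =>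
      hInv g (OpenSubgroup.mem_inf.1 hg).1
    rw [hb, cQ_sg, cQ_mul, cQ_mul]
    exact (FixM.form h5 h6).sg
  · rw [hb]
    refine even_sg fun i m h => ?_
    rw [Matrix.mul_apply] at h
    obtain ⟨n, -, hn⟩ := Finset.exists_ne_zero_of_sum_ne_zero h
    have h5 := left_ne_zero_of_mul hn
    have h6 := even_sg (M := mq a) h1 n m (by rw [← hM]; exact right_ne_zero_of_mul hn)
    rw [Matrix.mul_apply] at h5
    obtain ⟨l, -, hl⟩ := Finset.exists_ne_zero_of_sum_ne_zero h5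
    have h7 := even_sg (M := mq a) h1 l i (by
      rw [← hM]
      have := left_ne_zero_of_mul hl
      rwa [Matrix.transpose_apply] at this)
    have h8 : deg l = deg n := by
      by_contra h9
      exact right_ne_zero_of_mul hl (hd.Q l n h9)
    rw [Nat.even_iff] at h6 h7 ⊢
    omega
  · refine (q_tr hdeg hK b i m).trans ?_
    rw [hb, sg_sg]
    congr 1
    have h4 : K * (Mᵀ * H.Qr * M) * Kᵀ = (M * Kᵀ)ᵀ * H.Qr * (M * Kᵀ) := by
      rw [Matrix.transpose_mul, Matrix.transpose_transpose]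
      simp only [Matrix.mul_assoc]
    rw [h4, h3, Matrix.transpose_one, Matrix.one_mul, Matrix.mul_one]

end Pool.Agent.L0h10.RT
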