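import Pool.Agent.L0h10.RT.Geo4
import Pool.Agent.L0h10.RT.Form

/-!
# The form is invariant
-/

set_option linter.unusedSectionVars false

open CategoryTheory AlgebraicGeometry TensorProduct Matrix

universe u v

namespace Pool.Agent.L0h10.RT

open Module
open Pool.Agent.H914 Pool.Agent.H914.VarClass Pool.Agent.H914.VarClass.Obj
  Pool.Agent.H914.WeilCohomology
open Pool.Agent.Y121.AHS
open Pool.Agent.Y133.Half (pw pfst psnd wb wb_zero wb_succ ClassPred xp PH neg_pow_congr xp_mul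
  tr_xp xp_smul_left)
open Pool.Agent.Y121.AH (hodgePred)
open Pool.Agent.N996.BP Pool.Agent.N996.FP Pool.Agent.N996.BP.Geo
open Pool.Agent.N996.FP.Geo (form_gr adj_of_fM)
open Pool.Agent.L0h10.TS (GaloisAction IsTate cross_one isDeg_mapL mapL_em mapL_smL mapL_add
  mapL_zero smL_one emL_add emL_smul emL_zero exists_cl ve emL_clw cL toRep isT_iff isDeg_ve
  wb_mem hp desc_span ar2 ar2_inj ar2_surj kp_ar2 sum_fin2 GRep isTp_iff vB vB_apply gal_vB mt
  isDeg_vB Q_gr)
open Pool.Agent.L0h10.RQ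

variable {k : Type u} [Field k] {𝒱 : VarClass k} {ops : CycleOps 𝒱} {T : HodgeTheory ops}
  {X : 𝒱.Obj} {L : Type} [Field L] [CharZero L] [Algebra T.W.K L] {Γ : Type v} [Group Γ]
  [TopologicalSpace Γ] {G : GaloisAction T X Γ L} {Q : ClassPred T.W}
  {ι : Type} [Fintype ι] [DecidableEq ι] {e : Basis ι T.W.K (T.W.H X)} {deg : ι → ℕ}
  (hdeg : ∀ i, e i ∈ T.W.gr X (deg i)) {j : L →+* ℂ} {H : HData ι}

variable (G) in
/-- The form is invariant. -/
def InvForm (φ : HL T.W L X → HL T.W L X → L) : Prop :=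
  ∃ Δ : OpenSubgroup Γ, ∀ g ∈ Δ, ∀ (i : ℕ) (x y : HL T.W L (pw X 0)), IsDeg i x → IsDeg i y →
    G.χ g ^ i * φ (G.ρ 0 g x) (G.ρ 0 g y) = φ x y

variable {ψ : Pool.Agent.N996.FP.RForm T.W X} {F : Matrix ι ι ℚ}
  (hF : ∀ i m, ((F i m : ℚ) : T.W.K) = ψ (e i) (e m))

lemma exists_Fq (e : Basis ι T.W.K (T.W.H X)) (ψ : Pool.Agent.N996.FP.RForm T.W X) : ∃ F : Matrix ι ι ℚ,
    ∀ i m, ((F i m : ℚ) : T.W.K) = ψ (e i) (e m) := by
  choose q hq using fun i m => T.rat (ψ (e i) (e m))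
  exact ⟨Matrix.of q, fun i m => hq i m⟩

/-- The form with coefficients in `L` in coordinates. -/
lemma formL_vB (hF : ∀ i m, ((F i m : ℚ) : T.W.K) = ψ (e i) (e m)) (v w : ι → L) :
    formL L ψ (vB L e v : HL T.W L X) (vB L e w) =
      ∑ i, ∑ m, v i * w m * ((F i m : ℚ) : L) := by
  have h1 : ∀ v : ι → L, (show L ⊗[T.W.K] T.W.H X from (vB L e v : HL T.W L X)) =
      ∑ i, v i • ((1 : L) ⊗ₜ[T.W.K] e i) := fun v => vB_apply e v
  change (LinearMap.BilinForm.baseChange L ψ : LinearMap.BilinForm L (L ⊗[T.W.K] T.W.H X))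
    (show L ⊗[T.W.K] T.W.H X from (vB L e v : HL T.W L X))
    (show L ⊗[T.W.K] T.W.H X from (vB L e w : HL T.W L X)) = _
  rw [h1 v, h1 w, LinearMap.BilinForm.sum_left]
  refine Finset.sum_congr rfl fun i _ => ?_
  rw [map_sum]
  refine Finset.sum_congr rfl fun m _ => ?_
  rw [map_smul, LinearMap.BilinForm.smul_left, LinearMap.BilinForm.baseChange_tmul, ← hF,
    smul_eq_mul, one_mul, Algebra.smul_def ((F i m : ℚ) : T.W.K), map_ratCast, mul_one]
  ring

lemma formL_single (hF : ∀ i m, ((F i m : ℚ) : T.W.K) = ψ (e i) (e m)) (a b : ι) :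
    formL L ψ (vB L e (Pi.single a 1) : HL T.W L X) (vB L e (Pi.single b 1)) =
      ((F a b : ℚ) : L) := by
  rw [formL_vB hF, Finset.sum_eq_single a, Finset.sum_eq_single b]
  · rw [Pi.single_eq_same, Pi.single_eq_same, one_mul, one_mul]
  · intro m _ hm
    rw [Pi.single_eq_of_ne hm, mul_zero, zero_mul]
  · intro h; exact absurd (Finset.mem_univ _) h
  · intro i _ hi
    refine Finset.sum_eq_zero fun m _ => ?_
    rw [Pi.single_eq_of_ne hi, zero_mul, zero_mul]
  · intro h; exact absurd (Finset.mem_univ _) h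

include hdeg in
lemma isDeg_single (a : ι) : IsDeg (X := X) (deg a) (vB L e (Pi.single a 1) : HL T.W L X) := by
  refine (isDeg_vB hdeg).2 fun w hw => ?_
  by_cases h4 : w = a
  · rw [h4]
  · exact absurd (Pi.single_eq_of_ne h4 _) hw

/-- The form is invariant, in coordinates. -/
lemma inv_coord (hF : ∀ i m, ((F i m : ℚ) : T.W.K) = ψ (e i) (e m))
    (hFd : ∀ i m, deg i ≠ deg m → F i m = 0) {g : Γ}
    (h : ∀ (i : ℕ) (x y : HL T.W L (pw X 0)), IsDeg i x → IsDeg i y →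
      G.χ g ^ i * formL L ψ (G.ρ 0 g x) (G.ρ 0 g y) = formL L ψ x y) (a b : ι) :
    G.χ g ^ deg a * ∑ i, ∑ m, (toRep G e hdeg).R g i a * (toRep G e hdeg).R g m b *
      ((F i m : ℚ) : L) = ((F a b : ℚ) : L) := by
  by_cases hab : deg a = deg b
  · have h1 := h (deg a) (vB L e (Pi.single a 1) : HL T.W L X)
      (vB L e (Pi.single b 1) : HL T.W L X) (isDeg_single hdeg a)
      (by rw [hab]; exact isDeg_single hdeg b)
    have h2 : ∀ c : ι, G.ρ 0 g (vB L e (Pi.single c 1) : HL T.W L X) =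
        (vB L e ((toRep G e hdeg).R g *ᵥ Pi.single c 1) : HL T.W L X) := fun c => gal_vB G e g _
    rw [h2, h2, formL_single hF, formL_vB hF] at h1
    rw [← h1]
    congr 1
    refine Finset.sum_congr rfl fun i _ => Finset.sum_congr rfl fun m _ => ?_
    rw [Matrix.mulVec_single_one, Matrix.mulVec_single_one, Matrix.col_apply, Matrix.col_apply]
  · rw [hFd a b hab, Rat.cast_zero, Finset.sum_eq_zero, mul_zero]
    intro i _
    refine Finset.sum_eq_zero fun m _ => ?_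
    by_cases h1 : deg i = deg a
    · by_cases h2 : deg m = deg b
      · rw [hFd i m (by rw [h1, h2]; exact hab), Rat.cast_zero, mul_zero]
      · rw [(toRep G e hdeg).deg' g m b h2, mul_zero, zero_mul]
    · rw [(toRep G e hdeg).deg' g i a h1, zero_mul, zero_mul]

include hdeg in
lemma Fq_deg {ψ : LinearMap.BilinForm T.W.K (T.W.H X)}
    (hψ : IsPHS (tauT (toH T)) (Fx (toH T) X) ψ X.dim)
    (hF : ∀ i m, ((F i m : ℚ) : T.W.K) = ψ (e i) (e m)) (i m : ι) (h : deg i ≠ deg m) :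
    F i m = 0 := by
  have h1 : ψ (e i) (e m) = 0 := form_gr (T := toH T) hψ h (hdeg i) (hdeg m)
  rw [← hF] at h1
  exact_mod_cast h1

lemma fM_eq {ψ : LinearMap.BilinForm T.W.K (T.W.H X)}
    (hF : ∀ i m, ((F i m : ℚ) : T.W.K) = ψ (e i) (e m)) : fM e ψ = cQ F := by
  ext i m
  rw [fM, Matrix.of_apply, ← hF]
  exact map_ratCast (algebraMap T.W.K ℂ) _

include hdeg in
/-- The form is homogeneous. -/
lemma hom2_of {ψ : LinearMap.BilinForm T.W.K (T.W.H X)}
    (hψ : IsPHS (tauT (toH T)) (Fx (toH T) X) ψ X.dim)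
    {r : ℂ} (hQ : cQ H.Qr = r • (fM e ψ)ᵀ) : Hom2 deg H where
  Q i m h := by
    have h1 := congrFun (congrFun hQ i) m
    have h3 : ψ (e m) (e i) = 0 := form_gr (T := toH T) hψ (Ne.symm h) (hdeg m) (hdeg i)
    have h2 : fM e ψ m i = 0 := by
      rw [fM, Matrix.of_apply, h3, map_zero]
    rw [Matrix.smul_apply, Matrix.transpose_apply, h2, smul_zero, cQ, Matrix.map_apply] at h1
    exact_mod_cast h1
  Qi i m h := Q_gr (T := toH T) hψ hdeg hQ i m h

/-- The form is invariant under the normalised action. -/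
lemma invQ_of {ψ : Pool.Agent.N996.FP.RForm T.W X} (hψ : IsPHS (tauT (toH T)) (Fx (toH T) X) ψ X.dim)
    {r : ℂ} (hQ : cQ H.Qr = r • (fM e ψ)ᵀ)
    (hI : InvForm G (formL L ψ)) : ∃ Δ : OpenSubgroup Γ, InvQ j (toRep G e hdeg) H Δ := by
  obtain ⟨Δ, hΔ⟩ := hI
  obtain ⟨F, hF⟩ := exists_Fq e ψ
  have hFd := Fq_deg hdeg hψ hF
  refine ⟨Δ, fun g hg s hs => ?_⟩
  rw [hQ, fM_eq hF, Matrix.mul_smul, Matrix.smul_mul]
  congr 1
  ext b a
  have h1 := congrArg j (inv_coord (G := G) hdeg hF hFd (hΔ g hg) a b)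
  rw [map_mul, map_pow, map_ratCast, map_sum] at h1
  simp only [map_sum, map_mul, map_ratCast] at h1
  rw [Matrix.transpose_apply, cQ, Matrix.map_apply, ← h1, Matrix.mul_apply]
  simp only [Matrix.mul_apply, Finset.sum_mul, Finset.mul_sum, Matrix.transpose_apply,
    Matrix.map_apply]
  refine Finset.sum_congr rfl fun i _ => Finset.sum_congr rfl fun m _ => ?_
  have h2 : ∀ i a, Rs j (toRep G e hdeg) s g i a =
      s ^ deg i * j ((toRep G e hdeg).R g i a) := fun i a => by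
    rw [Rs, Matrix.diagonal_mul, Matrix.map_apply]
  rw [h2, h2]
  by_cases h3 : deg i = deg a
  · by_cases h4 : deg m = deg i
    · have h5 : s ^ deg m * s ^ deg i = j (G.χ g) ^ deg a := by
        have h6 : j (G.χ g) = s ^ 2 := hs.symm
        rw [h6, h4, h3, ← pow_add, ← pow_mul, two_mul]
      rw [← h5]
      ring
    · rw [hFd i m (Ne.symm h4), Rat.cast_zero]
      ring
  · rw [(toRep G e hdeg).deg' g i a h3, map_zero]
    ring

end Pool.Agent.L0h10.RT
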