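import Pool.Agent.L0h10.RQ.Idem

/-!
# Matrices whose integral eigenvectors span the space
-/

set_option linter.unusedSectionVars false

namespace Pool.Agent.L0h10.RQ

open Matrix Polynomial

variable {ι : Type} [Fintype ι] [DecidableEq ι]

lemma aeval_mulVec {y : Matrix ι ι ℂ} {u : ι → ℂ} {m : ℂ} (h : y *ᵥ u = m • u) (p : ℂ[X]) :
    (aeval y p) *ᵥ u = p.eval m • u := by
  induction p using Polynomial.induction_on' with
  | add p q hp hq => rw [map_add, Matrix.add_mulVec, hp, hq, eval_add, add_smul]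
  | monomial n a =>
    have key : ∀ n : ℕ, (y ^ n) *ᵥ u = m ^ n • u := by
      intro n
      induction n with
      | zero => rw [pow_zero, pow_zero, Matrix.one_mulVec, one_smul]
      | succ n ih =>
        rw [pow_succ, ← Matrix.mulVec_mulVec, h, Matrix.mulVec_smul, ih, smul_smul, pow_succ,
          mul_comm]
    rw [aeval_monomial, eval_monomial, Algebra.algebraMap_eq_smul_one, smul_mul_assoc, one_mul,
      Matrix.smul_mulVec, key, smul_smul]

lemma ext_span {S : Set (ι → ℂ)} (hS : ∀ v, v ∈ Submodule.span ℂ S) {M N : Matrix ι ι ℂ}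
    (h : ∀ u ∈ S, M *ᵥ u = N *ᵥ u) : M = N := by
  apply Matrix.mulVec_injective
  funext v
  change M *ᵥ v = N *ᵥ v
  have h1 := hS v
  induction h1 using Submodule.span_induction with
  | mem x hx => exact h x hx
  | zero => rw [Matrix.mulVec_zero, Matrix.mulVec_zero]
  | add a b _ _ ha hb => rw [Matrix.mulVec_add, Matrix.mulVec_add, ha, hb]
  | smul r a _ ha => rw [Matrix.mulVec_smul, Matrix.mulVec_smul, ha]

/-- If the eigenvectors with integral eigenvalues span the space, then the matrix is integral. -/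
theorem isInt_of {w : ℕ} {y : Matrix ι ι ℂ}
    (h : ∀ v, v ∈ Submodule.span ℂ {u | ∃ m : ℤ, |m| ≤ w ∧ y *ᵥ u = (m : ℂ) • u}) :
    IsInt w y := by
  obtain ⟨s, hs⟩ : ∃ s, s = Finset.Icc (-w : ℤ) w := ⟨_, rfl⟩
  have hmem : ∀ m : ℤ, |m| ≤ w → m ∈ s := by
    intro m hm
    rw [hs, Finset.mem_Icc]
    exact abs_le.1 hm
  have hinj : Set.InjOn (fun k : ℤ => (k : ℂ)) s := fun a _ b _ hab => by
    have h1 : (a : ℂ) = (b : ℂ) := hab
    exact_mod_cast h1
  let π : ℤ → Matrix ι ι ℂ := fun k => aeval y (Lagrange.basis s (fun k : ℤ => (k : ℂ)) k)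
  have h1 : ∀ k ∈ s, ∀ (m : ℤ) (u : ι → ℂ), |m| ≤ w → y *ᵥ u = (m : ℂ) • u →
      π k *ᵥ u = if k = m then u else 0 := by
    intro k hk m u hm hu
    have h2 := aeval_mulVec hu (Lagrange.basis s (fun k : ℤ => (k : ℂ)) k)
    change (aeval y (Lagrange.basis s (fun k : ℤ => (k : ℂ)) k)) *ᵥ u = _
    rw [h2]
    by_cases hkm : k = m
    · subst hkm
      have h3 := Lagrange.eval_basis_self hinj hk
      rw [if_pos rfl, h3, one_smul]
    · have h3 := Lagrange.eval_basis_of_ne (v := fun k : ℤ => (k : ℂ)) hkm (hmem m hm)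
      rw [if_neg hkm, h3, zero_smul]
  refine ⟨π, ?_, ?_, ?_⟩
  · rw [← hs]
    refine ext_span h ?_
    rintro u ⟨m, hm, hu⟩
    rw [Matrix.sum_mulVec, Finset.sum_congr rfl fun k hk => h1 k hk m u hm hu,
      Finset.sum_ite_eq' s m fun _ => u, if_pos (hmem m hm), Matrix.one_mulVec]
  · rw [← hs]
    intro k hk
    refine ext_span h ?_
    rintro u ⟨m, hm, hu⟩
    rw [← Matrix.mulVec_mulVec, Matrix.smul_mulVec, h1 k hk m u hm hu]
    by_cases hkm : k = m
    · subst hkm
      rw [if_pos rfl, hu]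
    · rw [if_neg hkm, Matrix.mulVec_zero, smul_zero]
  · rw [← hs]
    intro k hk
    refine ext_span h ?_
    rintro u ⟨m, hm, hu⟩
    rw [← Matrix.mulVec_mulVec, hu, Matrix.mulVec_smul, Matrix.smul_mulVec, h1 k hk m u hm hu]
    by_cases hkm : k = m
    · subst hkm
      rw [if_pos rfl]
    · rw [if_neg hkm, smul_zero, smul_zero]

end Pool.Agent.L0h10.RQ
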