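import Pool.Agent.L0h10.RT.Geo5
import Pool.Agent.L0h10.RT.Int
import Pool.Agent.L0h10.TS.Asm

/-!
# Weight operators in coordinates
-/

set_option linter.unusedSectionVars false

open CategoryTheory AlgebraicGeometry TensorProduct Matrix

universe u v

namespace Pool.Agent.L0h10.RT

open Module
open Pool.Agent.H914 Pool.Agent.H914.VarClass Pool.Agent.H914.VarClass.Obj
  Pool.Agent.H914.WeilCohomology
open Pool.Agent.Y121.AHS
open Pool.Agent.Y133.Half (pw pfst psnd wb wb_zero wb_succ ClassPred)
open Pool.Agent.Y121.AH (hodgePred)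
open Pool.Agent.N996.BP Pool.Agent.N996.FP Pool.Agent.N996.BP.Geo
open Pool.Agent.L0h10.TS (GaloisAction IsTate cross_one isDeg_mapL mapL_em mapL_smL mapL_add
  mapL_zero smL_one emL_add emL_smul emL_zero exists_cl ve emL_clw cL toRep isT_iff isDeg_ve
  wb_mem hp desc_span ar2 ar2_inj ar2_surj kp_ar2 sum_fin2 GRep isTp_iff vB vB_apply gal_vB mt
  isDeg_vB Q_gr Operators IsInfinitesimal KillsTate opOf opOf_zero inf_eq opOf_kill up_ve up
  IsComb jj vB_inj vB_smul smL_eq)
open Pool.Agent.L0h10.RQ

variable {k : Type u} [Field k] {𝒱 : VarClass k} {ops : CycleOps 𝒱} {T : HodgeTheory ops}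
  {X : 𝒱.Obj} {L Ω : Type} [Field L] [Field Ω] [Algebra T.W.K L] [Algebra T.W.K Ω] [Algebra L Ω]
  [IsScalarTower T.W.K L Ω] {Γ : Type v} [Group Γ] [TopologicalSpace Γ] (G : GaloisAction T X Γ L)

/-- A weight operator: an infinitesimal operator which kills the Tate classes and such that `H(X)` is
spanned by eigenvectors with integral eigenvalues of absolute value at most `w`. -/
structure IsWeight (w : ℕ) (D : Operators T X Ω) : Prop where
  inf : IsInfinitesimal D
  tate : KillsTate G D
  int : ∀ x : HL T.W Ω (pw X 0), IsComb Ω (fun y => ∃ m : ℤ, |m| ≤ w ∧ smL (m : Ω) y = D 0 y) x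

variable (Ω) in
/-- The classes which are killed by all weight operators are combinations of Tate classes. -/
def WeightGen (w : ℕ) : Prop := ∀ (n : ℕ) (x : HL T.W Ω (pw X n)),
  (∀ D : Operators T X Ω, IsWeight G w D → D n x = 0) →
    IsComb Ω (fun y => ∃ (j : ℕ) (z : HL T.W L (pw X n)), IsTate G n j z ∧ up Ω z = y) x

variable [CharZero L]
  {ι : Type} [Fintype ι] [DecidableEq ι] {e : Basis ι T.W.K (T.W.H X)} {deg : ι → ℕ}
  (hdeg : ∀ i, e i ∈ T.W.gr X (deg i))

lemma kt_iff (θ : Ω ≃+* ℂ) (y : Matrix ι ι Ω) : KillsTate G (opOf e y) ↔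
    y.map θ ∈ LT (TT (jj L θ) (toRep G e hdeg)) := by
  rw [mem_LT]
  constructor
  · rintro h n a ha
    obtain ⟨p, hp⟩ := (isT_iff G e hdeg).1 ha
    have h1 := h n p _ hp
    rw [up_ve, opOf_kill θ] at h1
    exact h1
  · intro h n p x hx
    obtain ⟨a, rfl⟩ := (ve L e n).surjective x
    rw [up_ve, opOf_kill θ]
    exact h n a ((isT_iff G e hdeg).2 ⟨p, hx⟩)

/-- Weight operators in coordinates. -/
lemma weight_int (θ : Ω ≃+* ℂ) {w : ℕ} {E : Operators T X Ω} (hE : IsWeight G w E) :
    (mt (Z := X) e (E 0)).map θ ∈ LT (TT (jj L θ) (toRep G e hdeg)) ∧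
      IsInt w ((mt (Z := X) e (E 0)).map θ) := by
  obtain ⟨y, hy⟩ : ∃ y, y = mt (Z := X) e (E 0) := ⟨_, rfl⟩
  have h1 : E = opOf e y := by rw [hy]; exact inf_eq hE.inf
  rw [← hy]
  refine ⟨?_, isInt_of fun v => ?_⟩
  · refine (kt_iff G hdeg θ y).1 ?_
    rw [← h1]
    exact hE.tate
  · obtain ⟨v', hv'⟩ : ∃ v' : ι → Ω, v' = fun i => θ.symm (v i) := ⟨_, rfl⟩
    have hv : v = fun i => θ (v' i) := by
      funext i
      rw [hv', RingEquiv.apply_symm_apply]
    have key : ∀ x ∈ Submodule.span Ω {z : HL T.W Ω X | ∃ m : ℤ, |m| ≤ w ∧ smL (m : Ω) z =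
        (E 0 z : HL T.W Ω X)}, (fun i => θ ((vB Ω e).symm x i)) ∈
        Submodule.span ℂ {u | ∃ m : ℤ, |m| ≤ w ∧ (y.map θ) *ᵥ u = (m : ℂ) • u} := by
      intro x hx
      induction hx using Submodule.span_induction with
      | mem x hx =>
        obtain ⟨m, hm, h2⟩ := hx
        obtain ⟨u, rfl⟩ := (vB Ω e).surjective x
        rw [LinearEquiv.symm_apply_apply]
        refine Submodule.subset_span ⟨m, hm, ?_⟩
        have h3 : opOf e y 0 (vB Ω e u : HL T.W Ω X) = (vB Ω e (y *ᵥ u) : HL T.W Ω X) :=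
          opOf_zero e y u
        rw [h1, h3, ← vB_smul] at h2
        have h4 := vB_inj h2
        funext i
        have h5 := congrArg θ (congrFun h4 i)
        rw [Pi.smul_apply, smul_eq_mul, map_mul, map_intCast, Matrix.mulVec, dotProduct,
          map_sum] at h5
        rw [Pi.smul_apply, smul_eq_mul, h5, Matrix.mulVec, dotProduct]
        refine Finset.sum_congr rfl fun t _ => ?_
        rw [map_mul, Matrix.map_apply]
      | zero =>
        have h5 : (fun i => θ ((vB Ω e).symm (0 : HL T.W Ω X) i)) = 0 := by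
          funext i
          rw [map_zero]
          exact map_zero θ
        rw [h5]
        exact Submodule.zero_mem _
      | add a b _ _ ha hb =>
        have h5 : (fun i => θ ((vB Ω e).symm (a + b) i)) =
            (fun i => θ ((vB Ω e).symm a i)) + fun i => θ ((vB Ω e).symm b i) := by
          funext i
          rw [map_add]
          exact map_add θ _ _
        rw [h5]
        exact Submodule.add_mem _ ha hb
      | smul c a _ ha =>
        have h5 : (fun i => θ ((vB Ω e).symm (c • a) i)) =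
            θ c • fun i => θ ((vB Ω e).symm a i) := by
          funext i
          rw [map_smul]
          exact map_mul θ _ _
        rw [h5]
        exact Submodule.smul_mem _ _ ha
    have h2 := key (vB Ω e v' : HL T.W Ω X) (hE.int _)
    rw [LinearEquiv.symm_apply_apply, ← hv] at h2
    exact h2

/-- The arrays which are killed by the integral elements are combinations of Tate arrays. -/
lemma gen_of (θ : Ω ≃+* ℂ) {w : ℕ} (hW : WeightGen Ω G w) (n : ℕ) (c : (Fin (n + 1) → ι) → ℂ)
    (hc : ∀ y ∈ LT (TT (jj L θ) (toRep G e hdeg)), IsInt w y → dk (Fin (n + 1)) y *ᵥ c = 0) :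
    c ∈ TT (jj L θ) (toRep G e hdeg) n := by
  obtain ⟨b, hb⟩ : ∃ b : (Fin (n + 1) → ι) → Ω, b = fun w => θ.symm (c w) := ⟨_, rfl⟩
  have hab : c = fun w => θ (b w) := by
    funext w
    rw [hb, RingEquiv.apply_symm_apply]
  have h4 := hW n (ve Ω e n b) fun E hE => by
    obtain ⟨h5, h6⟩ := weight_int G (e := e) hdeg θ hE
    have h7 := hc _ h5 h6
    rw [hab, ← opOf_kill (e := e), ← inf_eq hE.inf] at h7
    exact h7
  have key : ∀ x ∈ Submodule.span Ω {y | ∃ (j : ℕ) (z : HL T.W L (pw X n)),
      IsTate G n j z ∧ up Ω z = y}, (fun w => θ ((ve Ω e n).symm x w)) ∈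
      TT (jj L θ) (toRep G e hdeg) n := by
    intro x hx
    induction hx using Submodule.span_induction with
    | mem x hx =>
      obtain ⟨j, z, hz, rfl⟩ := hx
      obtain ⟨c, rfl⟩ := (ve L e n).surjective z
      refine Submodule.subset_span ⟨c, (isT_iff G e hdeg).2 ⟨j, hz⟩, ?_⟩
      funext w
      rw [up_ve, LinearEquiv.symm_apply_apply]
      rfl
    | zero =>
      have h5 : (fun w => θ ((ve Ω e n).symm 0 w)) = 0 := by
        funext w
        rw [map_zero]
        exact map_zero θ
      rw [h5]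
      exact Submodule.zero_mem _
    | add x y _ _ hx hy =>
      have h5 : (fun w => θ ((ve Ω e n).symm (x + y) w)) =
          (fun w => θ ((ve Ω e n).symm x w)) + fun w => θ ((ve Ω e n).symm y w) := by
        funext w
        rw [map_add]
        exact map_add θ _ _
      rw [h5]
      exact Submodule.add_mem _ hx hy
    | smul c x _ hx =>
      have h5 : (fun w => θ ((ve Ω e n).symm (c • x) w)) =
          θ c • fun w => θ ((ve Ω e n).symm x w) := by
        funext w
        rw [map_smul]
        exact map_mul θ _ _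
      rw [h5]
      exact Submodule.smul_mem _ _ hx
  have h5 := key _ h4
  rw [LinearEquiv.symm_apply_apply, ← hab] at h5
  exact h5

end Pool.Agent.L0h10.RT
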