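import Pool.Agent.L0h10.TS.Main

/-!
# Classes with a given property and Tate classes
-/

set_option linter.unusedSectionVars false

open CategoryTheory AlgebraicGeometry TensorProduct Matrix

universe u v

namespace Pool.Agent.L0h10.RT

open Module
open Pool.Agent.H914 Pool.Agent.H914.VarClass Pool.Agent.H914.VarClass.Obj
  Pool.Agent.H914.WeilCohomology
open Pool.Agent.Y121.AHS
open Pool.Agent.Y133.Half (pw pfst psnd wb wb_zero ClassPred)
open Pool.Agent.Y121.AH (hodgePred)
open Pool.Agent.N996.BP Pool.Agent.N996.FP Pool.Agent.N996.BP.Geo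
open Pool.Agent.L0h10.TS (GaloisAction IsTate cross_one isDeg_mapL mapL_em mapL_smL mapL_add
  mapL_zero smL_one emL_add emL_smul emL_zero exists_cl)

variable {k : Type u} [Field k] {𝒱 : VarClass k} {ops : CycleOps 𝒱} {T : HodgeTheory ops}
  {X : 𝒱.Obj}

/-- The classes of algebraic cycles. -/
def algPred (T : HodgeTheory ops) : ClassPred T.W where
  P X j c := ∃ z, X.IsCyc j z ∧ T.W.cl X z = c
  gr := by
    rintro X j _ ⟨z, hz, rfl⟩
    exact T.W.cl_mem hz
  zero := ⟨0, SmVar.IsCyc.zero _ _, map_zero _⟩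
  add := by
    rintro X j _ _ ⟨z, hz, rfl⟩ ⟨w, hw, rfl⟩
    exact ⟨z + w, SmVar.IsCyc.add hz hw, map_add _ _ _⟩
  smul := by
    rintro X j r _ ⟨z, hz, rfl⟩
    obtain ⟨q, rfl⟩ := T.rat r
    exact ⟨q • z, SmVar.IsCyc.smul q hz, T.W.cl_smul q z⟩
  cl := fun {_ _ z} hz => ⟨z, hz, rfl⟩
  mul := by
    rintro X i j _ _ ⟨z, hz, rfl⟩ ⟨w, hw, rfl⟩
    exact ⟨ops.mul z w, ops.mul_mem hz hw, T.W.cl_mul z w⟩
  map := by
    rintro X Y f j _ ⟨z, hz, rfl⟩
    exact ⟨ops.pull f z, ops.pull_mem f hz, T.W.cl_pull f z⟩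
  push := by
    rintro X Y f j l h _ ⟨z, hz, rfl⟩
    exact ⟨ops.push f z, ops.push_mem f hz (by omega), T.W.cl_push f z⟩

variable {L : Type} [Field L] [Algebra T.W.K L] {Γ : Type v} [Group Γ] [TopologicalSpace Γ]
  (G : GaloisAction T X Γ L) (Q : ClassPred T.W)

/-- The Tate classes on `X ^ (n + 1)` are combinations of classes with the property `Q`. -/
def TateQ (n : ℕ) : Prop := ∀ (j : ℕ) (x : HL T.W L (pw X n)), IsTate G n j x →
  x ∈ Submodule.span L {y : HL T.W L (pw X n) | ∃ c, Q.P (pw X n) j c ∧ emL T.W L c = y}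

/-- The classes with the property `Q` are Tate classes. -/
def QTate : Prop := ∀ (n j : ℕ) (c : T.W.H (pw X n)), Q.P (pw X n) j c →
  IsTate G n j (emL T.W L c)

variable {G Q}

lemma one_P (Z : 𝒱.Obj) : Q.P Z 0 (1 : T.W.H Z) := by
  have h := Q.cl (SmVar.fundCycle_mem Z.V)
  rwa [T.W.cl_fund] at h

/-- The property passes to the previous power. -/
theorem tateQ_pred (h1 : QTate G Q) {n : ℕ} (hm : TateQ G Q (n + 1)) : TateQ G Q n := by
  intro j x hx
  have h2 : IsTate G (n + 1) j (mapL (pfst X n) x) := by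
    obtain ⟨h3, Δ, h4⟩ := hx
    obtain ⟨-, Δ', h5⟩ := h1 0 0 1 (one_P _)
    refine ⟨isDeg_mapL _ h3, Δ ⊓ Δ', fun g hg => ?_⟩
    have h6 : G.ρ 0 g (emL T.W L (1 : T.W.H (pw X 0))) = emL T.W L (1 : T.W.H (pw X 0)) := by
      have := h5 g (OpenSubgroup.mem_inf.1 hg).2
      rwa [pow_zero, smL_one] at this
    have h7 : G.ρ (n + 1) g (mapL (pfst X n) x) = mapL (pfst X n) (G.ρ n g x) :=
      (congrArg (G.ρ (n + 1) g) (cross_one x)).symm.trans
        ((G.cross n g x _).trans ((congrArg (TS.cross (G.ρ n g x)) h6).trans (cross_one _)))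
    rw [h7, ← mapL_smL, h4 g (OpenSubgroup.mem_inf.1 hg).1]
  have h3 := hm j _ h2
  let s : pw X n ⟶ pw X (n + 1) := Pool.Agent.Y133.Half.plift (𝟙 (pw X n))
    (Pool.Agent.Y133.Half.prj X n 0)
  have h4 : x = mapL s (mapL (pfst X n) x) := by
    have key : ∀ y : L ⊗[T.W.K] T.W.H (pw X n), y =
        (T.W.map s).toLinearMap.baseChange L
          ((T.W.map (pfst X n)).toLinearMap.baseChange L y) := by
      intro y
      induction y using TensorProduct.induction_on with
      | zero => rw [map_zero, map_zero]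
      | add a b ha hb => rw [map_add, map_add, ← ha, ← hb]
      | tmul l c =>
        rw [LinearMap.baseChange_tmul, LinearMap.baseChange_tmul]
        congr 1
        change c = T.W.map s (T.W.map (pfst X n) c)
        rw [← T.W.map_comp, Pool.Agent.Y133.Half.plift_fst, T.W.map_id]
    exact key x
  rw [h4]
  generalize mapL (pfst X n) x = y at h3
  induction h3 using Submodule.span_induction with
  | mem y hy =>
    obtain ⟨c, hc, rfl⟩ := hy
    refine Submodule.subset_span ⟨T.W.map s c, Q.map s hc, ?_⟩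
    rw [mapL_em]
  | zero =>
    rw [mapL_zero]
    exact Submodule.zero_mem _
  | add a b _ _ ha hb =>
    rw [mapL_add]
    exact Submodule.add_mem _ ha hb
  | smul c a _ ha =>
    have h4 : mapL s (c • a) = c • mapL s a := mapL_smL _ c a
    rw [h4]
    exact Submodule.smul_mem _ _ ha

theorem tateQ_mono (h1 : QTate G Q) {n m : ℕ} (h : n ≤ m) (hm : TateQ G Q m) : TateQ G Q n := by
  induction h with
  | refl => exact hm
  | step _ ih => exact ih (tateQ_pred h1 hm)

end Pool.Agent.L0h10.RT
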